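import Pool.Agent.H69N.KP.LineP

/-!
# Convergence to zero along arbitrary families with rare coincidences of levels
-/

set_option autoImplicit false
set_option linter.unusedSectionVars false

open MeasureTheory Filter Topology

noncomputable section

namespace Pool.Agent.H69N.KP

open Pool.Agent.TH784.KE
open Pool.Agent.W761.Box (bx bx_add bx_mul bx_sum bx_mono bx_abs bx_const_le bx_nonneg)
open Pool.Agent.TH784.AA (bxs mem_bxs vol vol_pos vol_nonneg card_bxs sum_fiber bxs_mono)

section cut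

variable {k : ℕ}

/-- the coordinates outside `U` are replaced by zero -/
def cut (U : Finset (Fin k)) (n : Fin k → ℕ) : Fin k → ℕ := fun l => if l ∈ U then n l else 0

theorem cut_inv {α : Type*} (U : Finset (Fin k)) (φ : (Fin k → ℕ) → α)
    (h : ∀ l ∉ U, ∀ n t, φ (Function.update n l t) = φ n) (n : Fin k → ℕ) :
    φ (cut U n) = φ n := by
  classical
  have key : ∀ T : Finset (Fin k), (∀ l ∈ T, l ∉ U) →
      φ (fun l => if l ∈ T then 0 else n l) = φ n := by
    intro T
    induction T using Finset.induction_on with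
    | empty => intro _; simp
    | insert a s ha ih =>
      intro hT
      rw [← ih (fun l hl => hT l (Finset.mem_insert_of_mem hl)),
        ← h a (hT a (Finset.mem_insert_self a s)) (fun l => if l ∈ s then 0 else n l) 0]
      congr 1
      funext l
      by_cases hla : l = a
      · subst hla
        rw [Function.update_self, if_pos (Finset.mem_insert_self l s)]
      · rw [Function.update_of_ne hla]
        simp [hla]
  have h1 := key Uᶜ (fun l hl => Finset.mem_compl.1 hl)
  rw [← h1]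
  congr 1
  funext l
  unfold cut
  by_cases hl : l ∈ U <;> simp [hl]

theorem cut_update {U : Finset (Fin k)} {l : Fin k} (hl : l ∈ U) (n : Fin k → ℕ) (t : ℕ) :
    cut U (Function.update n l t) = Function.update (cut U n) l t := by
  funext l'
  unfold cut
  by_cases h : l' = l
  · subst h
    rw [Function.update_self, Function.update_self, if_pos hl]
  · rw [Function.update_of_ne h, Function.update_of_ne h]

end cut

variable {X : Type*} {mA mY mX : MeasurableSpace X} {μ : Measure X} [IsProbabilityMeasure μ]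
variable {G : Type*} [Group G]
variable {Φ : G →* Equiv.Perm X} {ℓ : G → ℝ}
variable {J : Type*} [DecidableEq J]

/-- at most `C` coincidences up to `R` of the levels on the line -/
def Cnt {k : ℕ} (ℓ : G → ℝ) (q : (Fin k → ℕ) → J → G) (R : ℝ) (C : ℕ) (v : J) (l : Fin k)
    (n : Fin k → ℕ) : Prop :=
  ∀ (a : ℝ) (A : Finset ℕ), (∀ t ∈ A, |ℓ (q (Function.update n l t) v) - a| < R) → A.card ≤ C

/-- sums along the lines of a cube -/
theorem lines_aeR {k : ℕ} (hFl : Flow μ Φ) (hA : Filt mX mA Φ ℓ) (hY : Base mY mA Φ)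
    {V : Finset J} {q : (Fin k → ℕ) → J → G} (l : Fin k)
    {F H : J → X → ℝ} {W : (Fin k → ℕ) → X → ℝ} {r s : G} {R : ℝ}
    (hsr : ℓ s ≤ ℓ r) (hR : ℓ r - ℓ s ≤ R) (hR0 : 0 < R)
    (hF : ∀ w ∈ V, Measurable[cm mA Φ r] (F w) ∧ ∀ x, |F w x| ≤ 1)
    (hH : ∀ v ∈ V, CE μ (cm mA Φ s) (F v) (H v))
    (hW : ∀ n, Measurable[mY] (W n) ∧ ∀ x, |W n x| ≤ 1) (C : ℕ) {η : ℝ} (hη : 0 < η) :
    ∀ᵐ x ∂μ, ∀ᶠ M : ℕ in atTop, ∀ n ∈ bxs (fun _ : Fin k => M),
      (∀ v ∈ V, Cnt ℓ q R C v l n) →
      |∑ t ∈ Finset.range M, ∑ v ∈ V, DD V Φ ℓ R F H (W (Function.update n l t))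
        (q (Function.update n l t)) v x| ≤ η * M := by
  classical
  set η' : ℝ := η / (V.card + 1) with hη'
  have hη'0 : 0 < η' := by positivity
  set L : ℕ := C + 1 with hLdef
  have hL : 0 < L := Nat.succ_pos C
  set κ : ℝ := (η' / (2 * L)) ^ 2 / 2 with hκ
  have hL' : (0 : ℝ) < L := by exact_mod_cast hL
  have hκ0 : 0 < κ := by positivity
  let bad : ℕ → Set X := fun M => ⋃ n ∈ (bxs (fun _ : Fin k => M)).filter
    (fun n => ∀ v ∈ V, Cnt ℓ q R C v l n), ⋃ v ∈ V,
    {x | η' * M ≤ |∑ t ∈ Finset.range M, DD V Φ ℓ R F H (W (Function.update n l t))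
      (q (Function.update n l t)) v x|}
  have hbad : ∀ M : ℕ, 0 < M → μ.real (bad M) ≤
      ((M : ℝ) ^ k * Real.exp (-κ) ^ M) * (V.card * (L * 2)) := by
    intro M hM
    have hM' : (0 : ℝ) < M := by exact_mod_cast hM
    refine (measureReal_biUnion_finset_le _ _).trans ?_
    have h1 : ∀ n ∈ (bxs (fun _ : Fin k => M)).filter
        (fun n => ∀ v ∈ V, Cnt ℓ q R C v l n), μ.real (⋃ v ∈ V,
        {x | η' * M ≤ |∑ t ∈ Finset.range M, DD V Φ ℓ R F H (W (Function.update n l t))
          (q (Function.update n l t)) v x|}) ≤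
        V.card * (L * (2 * Real.exp (-κ) ^ M)) := by
      intro n hn
      have hreg := (Finset.mem_filter.1 hn).2
      refine (measureReal_biUnion_finset_le _ _).trans ?_
      rw [← nsmul_eq_mul, ← Finset.sum_const]
      refine Finset.sum_le_sum fun v hv => ?_
      have h2 := line_boundR hFl hA hY hv (p := fun m => q (Function.update n l m))
        (W := fun t => W (Function.update n l t)) hsr hR hR0 hF (hH v hv)
        (fun t => hW _) (hreg v hv) hM (t := η' * M) (by positivity)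
      refine h2.trans (le_of_eq ?_)
      congr 2
      rw [← Real.exp_nat_mul]
      congr 1
      rw [hκ, hLdef]
      field_simp
    refine (Finset.sum_le_sum h1).trans ?_
    rw [Finset.sum_const, nsmul_eq_mul]
    have hcard : (((bxs (fun _ : Fin k => M)).filter
        (fun n => ∀ v ∈ V, Cnt ℓ q R C v l n)).card : ℝ) ≤ (M : ℝ) ^ k := by
      refine le_trans (Nat.cast_le.2 (Finset.card_filter_le _ _)) (le_of_eq ?_)
      rw [card_bxs]
      unfold vol
      rw [Finset.prod_const, Finset.card_univ, Fintype.card_fin]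
    refine (mul_le_mul_of_nonneg_right hcard (by positivity)).trans (le_of_eq ?_)
    ring
  have hsummable : Summable fun M : ℕ => ((M : ℝ) ^ k * Real.exp (-κ) ^ M) *
      (V.card * (L * 2)) := by
    refine Summable.mul_right _ ?_
    refine summable_pow_mul_geometric_of_norm_lt_one k ?_
    rw [Real.norm_eq_abs, abs_of_pos (Real.exp_pos _), Real.exp_lt_one_iff]
    linarith
  have hfin : ∑' M, μ (bad (M + 1)) ≠ ⊤ := by
    have h3 : ∀ M, μ (bad (M + 1)) ≤ ENNReal.ofReal ((((M + 1 : ℕ) : ℝ) ^ k *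
        Real.exp (-κ) ^ (M + 1)) * (V.card * (L * 2))) := by
      intro M
      have h4 := hbad (M + 1) M.succ_pos
      rw [measureReal_def] at h4
      rw [← ENNReal.ofReal_toReal (measure_ne_top μ (bad (M + 1)))]
      exact ENNReal.ofReal_le_ofReal h4
    refine ne_top_of_le_ne_top ?_ (ENNReal.tsum_le_tsum h3)
    exact ((summable_nat_add_iff 1).2 hsummable).tsum_ofReal_ne_top
  filter_upwards [ae_eventually_notMem hfin] with x hx
  obtain ⟨M₀, hM₀⟩ := eventually_atTop.1 hx
  refine eventually_atTop.2 ⟨M₀ + 1, fun M' hM' => ?_⟩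
  obtain ⟨M, rfl⟩ : ∃ M, M' = M + 1 := ⟨M' - 1, by omega⟩
  have hM := hM₀ M (by omega)
  intro n hn hreg
  by_contra hcon
  rw [not_le] at hcon
  apply hM
  have h5 : ∃ v ∈ V, η' * ((M + 1 : ℕ) : ℝ) ≤ |∑ t ∈ Finset.range (M + 1),
      DD V Φ ℓ R F H (W (Function.update n l t)) (q (Function.update n l t)) v x| := by
    by_contra hcon2
    push Not at hcon2
    rw [Finset.sum_comm] at hcon
    have h6 := Finset.abs_sum_le_sum_abs (fun v => ∑ t ∈ Finset.range (M + 1),
      DD V Φ ℓ R F H (W (Function.update n l t)) (q (Function.update n l t)) v x) V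
    have h7 : ∑ v ∈ V, |∑ t ∈ Finset.range (M + 1),
        DD V Φ ℓ R F H (W (Function.update n l t)) (q (Function.update n l t)) v x| ≤
        V.card * (η' * ((M + 1 : ℕ) : ℝ)) := by
      rw [← nsmul_eq_mul, ← Finset.sum_const]
      exact Finset.sum_le_sum fun v hv => (hcon2 v hv).le
    have h8 : (V.card : ℝ) * (η' * ((M + 1 : ℕ) : ℝ)) ≤ η * ((M + 1 : ℕ) : ℝ) := by
      rw [← mul_assoc]
      refine mul_le_mul_of_nonneg_right ?_ (by positivity)
      rw [hη', mul_div_assoc', div_le_iff₀ (by positivity)]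
      nlinarith
    linarith
  obtain ⟨v, hv, hle⟩ := h5
  exact Set.mem_biUnion (Finset.mem_filter.2 ⟨hn, hreg⟩) (Set.mem_biUnion hv hle)

theorem errb_congr [Fintype J] {R : ℝ} {H : J → X → ℝ} {S : Finset J} {p p' : J → G}
    (h : ∀ v ∈ S, p v = p' v) (x : X) : errb Φ ℓ R H S p x = errb Φ ℓ R H S p' x := by
  unfold errb
  congr 1
  · exact Finset.sum_congr rfl fun v hv => by rw [h v hv]
  · refine Finset.sum_congr rfl fun v hv => Finset.sum_congr rfl fun w hw => ?_
    rw [h v hv, h w (Finset.mem_of_mem_erase hw)]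

open Classical in
/-- few coincidences on most lines in the direction `l` -/
def Rare {k : ℕ} (ℓ : G → ℝ) (q : (Fin k → ℕ) → J → G) (v : J) (l : Fin k) : Prop :=
  ∀ R ε : ℝ, 0 < ε → ∃ C M₀ : ℕ, ∀ N : Fin k → ℕ, (∀ j, M₀ ≤ N j) →
    bx k N (fun n => if Cnt ℓ q R C v l n then (0 : ℝ) else 1) ≤ ε

theorem Cnt.mono {k : ℕ} {q : (Fin k → ℕ) → J → G} {R : ℝ} {C C' : ℕ} {v : J} {l : Fin k}
    {n : Fin k → ℕ} (h : Cnt ℓ q R C v l n) (hC : C ≤ C') : Cnt ℓ q R C' v l n :=
  fun a A hA => (h a A hA).trans hC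

variable [Fintype J] {k : ℕ}

open Classical in
theorem rare_all {q : (Fin k → ℕ) → J → G} {S : Finset J} {dep : J → Fin k → Prop}
    (h : ∀ v ∈ S, ∀ l, dep v l → Rare ℓ q v l) (R ε : ℝ) (hε : 0 < ε) :
    ∃ C M₀ : ℕ, ∀ l : Fin k, ∀ N : Fin k → ℕ, (∀ j, M₀ ≤ N j) →
      bx k N (fun n => if ∀ v ∈ S.filter (fun v => dep v l), Cnt ℓ q R C v l n
        then (0 : ℝ) else 1) ≤ ε := by
  set ε' : ℝ := ε / (S.card + 1) with hε'
  have hε'0 : 0 < ε' := by positivity
  have h1 : ∀ v : J, ∀ l : Fin k, ∃ C M₀ : ℕ, v ∈ S → dep v l → ∀ N : Fin k → ℕ,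
      (∀ j, M₀ ≤ N j) → bx k N (fun n => if Cnt ℓ q R C v l n then (0 : ℝ) else 1) ≤ ε' := by
    intro v l
    by_cases hv : v ∈ S ∧ dep v l
    · obtain ⟨C, M₀, h2⟩ := h v hv.1 l hv.2 R ε' hε'0
      exact ⟨C, M₀, fun _ _ => h2⟩
    · exact ⟨0, 0, fun h3 h4 => absurd ⟨h3, h4⟩ hv⟩
  choose C M₀ hCM using h1
  refine ⟨∑ v, ∑ l, C v l, ∑ v, ∑ l, M₀ v l, fun l N hN => ?_⟩
  have hCle : ∀ v l, C v l ≤ ∑ v, ∑ l, C v l := fun v l =>
    (Finset.single_le_sum (f := fun l => C v l) (fun _ _ => Nat.zero_le _)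
      (Finset.mem_univ l)).trans (Finset.single_le_sum (f := fun v => ∑ l, C v l)
      (fun _ _ => Nat.zero_le _) (Finset.mem_univ v))
  have hMle : ∀ v l, M₀ v l ≤ ∑ v, ∑ l, M₀ v l := fun v l =>
    (Finset.single_le_sum (f := fun l => M₀ v l) (fun _ _ => Nat.zero_le _)
      (Finset.mem_univ l)).trans (Finset.single_le_sum (f := fun v => ∑ l, M₀ v l)
      (fun _ _ => Nat.zero_le _) (Finset.mem_univ v))
  have h2 : bx k N (fun n => if ∀ v ∈ S.filter (fun v => dep v l),
      Cnt ℓ q R (∑ v, ∑ l, C v l) v l n then (0 : ℝ) else 1) ≤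
      bx k N (fun n => ∑ v ∈ S.filter (fun v => dep v l),
        if Cnt ℓ q R (C v l) v l n then (0 : ℝ) else 1) := by
    refine bx_mono fun n => ?_
    split_ifs with h3
    · exact Finset.sum_nonneg fun _ _ => by split_ifs <;> norm_num
    · push Not at h3
      obtain ⟨v, hv, hcon⟩ := h3
      have h4 : ¬ Cnt ℓ q R (C v l) v l n := fun h5 => hcon (h5.mono (hCle v l))
      have h5 := Finset.single_le_sum (s := S.filter (fun v => dep v l))
        (f := fun v => if Cnt ℓ q R (C v l) v l n then (0 : ℝ) else 1)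
        (fun _ _ => by split_ifs <;> norm_num) hv
      simp only [h4, if_false] at h5
      exact h5
  refine h2.trans ?_
  rw [bx_sum]
  refine (Finset.sum_le_sum (g := fun _ => ε') fun v hv => ?_).trans ?_
  · obtain ⟨hv1, hv2⟩ := Finset.mem_filter.1 hv
    exact hCM v l hv1 hv2 N fun j => (hMle v l).trans (hN j)
  · rw [Finset.sum_const, nsmul_eq_mul, hε', mul_div_assoc', div_le_iff₀ (by positivity)]
    have h6 : ((S.filter (fun v => dep v l)).card : ℝ) ≤ S.card := by
      exact_mod_cast Finset.card_filter_le _ _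
    nlinarith

theorem bound_aeR (hFl : Flow μ Φ) (hA : Filt mX mA Φ ℓ) (hY : Base mY mA Φ)
    {S : Finset J} {q : (Fin k → ℕ) → J → G} {U : Finset (Fin k)} (hU : U.Nonempty)
    (dep : J → Fin k → Prop)
    (h1 : ∀ v ∈ S, ∀ l, ¬ dep v l → ∀ n t, q (Function.update n l t) v = q n v)
    (h2 : ∀ l ∈ U, ∃ v ∈ S, dep v l) (h2' : ∀ l ∉ U, ∀ v ∈ S, ¬ dep v l)
    (hrare : ∀ v ∈ S, ∀ l, dep v l → Rare ℓ q v l)
    {F H : J → X → ℝ} {r s : G} {R : ℝ} (hsr : ℓ s ≤ ℓ r) (hR : ℓ r - ℓ s ≤ R) (hR0 : 0 < R)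
    (hF : ∀ v ∈ S, Measurable[cm mA Φ r] (F v)) (hF1 : ∀ v x, |F v x| ≤ 1)
    (hFY : ∀ v ∉ S, Measurable[mY] (F v)) (hH : ∀ v ∈ S, CE μ (cm mA Φ s) (F v) (H v))
    (hWc : ∀ l ∉ U, ∀ v ∉ S, ∀ n t x,
      F v (Φ (q (Function.update n l t) v) x) = F v (Φ (q n v) x))
    {η : ℝ} (hη : 0 < η) :
    ∀ᵐ x ∂μ, ∀ᶠ N : Fin k → ℕ in atTop,
      |bx k N fun n => ∏ v, F v (Φ (q n v) x)| ≤
        η + bx k N fun n => errb Φ ℓ R H S (q n) x := by
  classical
  obtain ⟨C, M₁, hCM⟩ := rare_all hrare R (η / 2) (by positivity)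
  let V : Fin k → Finset J := fun l => S.filter fun v => dep v l
  have hVS : ∀ l, V l ⊆ S := fun l => Finset.filter_subset _ _
  let W : (Fin k → ℕ) → X → ℝ := fun n x => ∏ v ∈ Sᶜ, F v (Φ (q n v) x)
  have hW : ∀ n, Measurable[mY] (W n) ∧ ∀ x, |W n x| ≤ 1 := by
    intro n
    refine ⟨Finset.measurable_fun_prod _ fun v hv => ?_, fun x =>
      prod_abs_le (fun w _ => hF1 w) _ x⟩
    exact (hFY v (Finset.mem_compl.1 hv)).comp (hY.inv _)
  have hlines : ∀ᵐ x ∂μ, ∀ l : Fin k, ∀ᶠ M : ℕ in atTop, ∀ n ∈ bxs (fun _ : Fin k => M),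
      (∀ v ∈ V l, Cnt ℓ q R C v l n) →
      |∑ t ∈ Finset.range M, ∑ v ∈ V l, DD (V l) Φ ℓ R F H (W (Function.update n l t))
        (q (Function.update n l t)) v x| ≤ η / 2 * M := by
    rw [ae_all_iff]
    intro l
    exact lines_aeR hFl hA hY l hsr hR hR0
      (fun w hw => ⟨hF w (hVS l hw), hF1 w⟩) (fun v hv => hH v (hVS l hv)) hW C (by positivity)
  filter_upwards [hlines] with x hx
  obtain ⟨M₀, hM₀⟩ := eventually_atTop.1 (eventually_all.2 hx)
  refine eventually_atTop.2 ⟨fun _ => max (max M₀ 1) M₁, fun N hN => ?_⟩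
  have hN1 : ∀ j, 1 ≤ N j := fun j =>
    ((le_max_right M₀ 1).trans (le_max_left _ _)).trans (hN j)
  obtain ⟨l, hlU, hl⟩ := Finset.exists_max_image U N hU
  have hNl : M₀ ≤ N l := ((le_max_left M₀ 1).trans (le_max_left _ _)).trans (hN l)
  have hNlpos : (0 : ℝ) < N l := by
    have := hN1 l
    positivity
  have hVne : (V l).Nonempty := by
    obtain ⟨v, hv, h⟩ := h2 l hlU
    exact ⟨v, Finset.mem_filter.2 ⟨hv, h⟩⟩
  -- invariance
  have hqinv : ∀ v ∈ S, ∀ l' ∉ U, ∀ n t, q (Function.update n l' t) v = q n v :=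
    fun v hv l' hl' n t => h1 v hv l' (h2' l' hl' v hv) n t
  have hqcut : ∀ v ∈ S, ∀ n, q (cut U n) v = q n v := fun v hv n =>
    cut_inv U (fun n => q n v) (fun l' hl' n t => hqinv v hv l' hl' n t) n
  have hgcut : ∀ n, ∏ v, F v (Φ (q (cut U n) v) x) = ∏ v, F v (Φ (q n v) x) := by
    intro n
    refine cut_inv U (fun n => ∏ v, F v (Φ (q n v) x)) (fun l' hl' n t => ?_) n
    refine Finset.prod_congr rfl fun v _ => ?_
    by_cases hv : v ∈ S
    · rw [hqinv v hv l' hl']
    · exact hWc l' hl' v hv n t x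
  -- factorisation
  have hfac : ∀ n : Fin k → ℕ, ∏ v, F v (Φ (q n v) x) =
      (∏ v ∈ S.filter (fun v => ¬ dep v l), F v (Φ (q n v) x)) *
        ((∏ v ∈ V l, F v (Φ (q n v) x)) * W n x) := by
    intro n
    show _ = _ * (_ * ∏ v ∈ Sᶜ, F v (Φ (q n v) x))
    rw [← Finset.prod_mul_prod_compl S, ← Finset.prod_filter_mul_prod_filter_not S
      (fun v => dep v l)]
    ring
  have hinv : ∀ (n : Fin k → ℕ) (t : ℕ),
      ∏ v ∈ S.filter (fun v => ¬ dep v l), F v (Φ (q (Function.update n l t) v) x) =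
      ∏ v ∈ S.filter (fun v => ¬ dep v l), F v (Φ (q n v) x) := by
    intro n t
    refine Finset.prod_congr rfl fun v hv => ?_
    rw [Finset.mem_filter] at hv
    rw [h1 v hv.1 l hv.2 n t]
  have hline : ∀ n ∈ bxs (fun _ : Fin k => N l), (∀ v ∈ V l, Cnt ℓ q R C v l n) →
      |(N l : ℝ)⁻¹ * ∑ t ∈ Finset.range (N l),
      ∏ v, F v (Φ (q (Function.update n l t) v) x)| ≤
      η / 2 + (N l : ℝ)⁻¹ * ∑ t ∈ Finset.range (N l),
        errb Φ ℓ R H S (q (Function.update n l t)) x := by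
    intro n hn' hreg
    have e1 : ∑ t ∈ Finset.range (N l), ∏ v, F v (Φ (q (Function.update n l t) v) x) =
        (∏ v ∈ S.filter (fun v => ¬ dep v l), F v (Φ (q n v) x)) *
        ∑ t ∈ Finset.range (N l),
          ((∏ v ∈ V l, F v (Φ (q (Function.update n l t) v) x)) *
            W (Function.update n l t) x) := by
      rw [Finset.mul_sum]
      refine Finset.sum_congr rfl fun t _ => ?_
      rw [hfac, hinv]
    rw [e1, abs_mul, abs_mul, abs_of_pos (inv_pos.2 hNlpos)]
    have hK := prod_abs_le (Φ := Φ) (V := S.filter (fun v => ¬ dep v l)) (F := F)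
      (fun w _ => hF1 w) (q n) x
    set K := ∏ v ∈ S.filter (fun v => ¬ dep v l), F v (Φ (q n v) x) with hKdef
    have e2 : |∑ t ∈ Finset.range (N l),
          ((∏ v ∈ V l, F v (Φ (q (Function.update n l t) v) x)) *
            W (Function.update n l t) x)| ≤ η / 2 * N l + ∑ t ∈ Finset.range (N l),
        errb Φ ℓ R H S (q (Function.update n l t)) x := by
      have e3 : ∑ t ∈ Finset.range (N l),
          ((∏ v ∈ V l, F v (Φ (q (Function.update n l t) v) x)) *
            W (Function.update n l t) x) =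
          ∑ t ∈ Finset.range (N l), ∑ v ∈ V l, DD (V l) Φ ℓ R F H (W (Function.update n l t))
            (q (Function.update n l t)) v x +
          ∑ t ∈ Finset.range (N l), ((∏ v ∈ V l, F v (Φ (q (Function.update n l t) v) x)) *
            W (Function.update n l t) x - ∑ v ∈ V l, DD (V l) Φ ℓ R F H
              (W (Function.update n l t)) (q (Function.update n l t)) v x) := by
        rw [← Finset.sum_add_distrib]
        refine Finset.sum_congr rfl fun t _ => ?_
        ring
      rw [e3]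
      refine (abs_add_le _ _).trans (add_le_add (hM₀ _ hNl l n hn' hreg) ?_)
      refine (Finset.abs_sum_le_sum_abs _ _).trans (Finset.sum_le_sum fun t _ => ?_)
      refine (pointwise hVne hR0 (fun w _ => hF1 w) (hW _).2 _ x).trans ?_
      exact errb_mono (Φ := Φ) (ℓ := ℓ) R H (hVS l) _ x
    calc (N l : ℝ)⁻¹ * (|K| * |∑ t ∈ Finset.range (N l),
          ((∏ v ∈ V l, F v (Φ (q (Function.update n l t) v) x)) *
            W (Function.update n l t) x)|) ≤
          (N l : ℝ)⁻¹ * (1 * (η / 2 * N l + ∑ t ∈ Finset.range (N l),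
            errb Φ ℓ R H S (q (Function.update n l t)) x)) := by
          refine mul_le_mul_of_nonneg_left ?_ (inv_pos.2 hNlpos).le
          exact mul_le_mul hK e2 (abs_nonneg _) zero_le_one
      _ = _ := by
          field_simp
  have herr0 : ∀ (p : J → G), 0 ≤ errb Φ ℓ R H S p x := by
    intro p
    unfold errb
    exact add_nonneg (Finset.sum_nonneg fun _ _ => abs_nonneg _)
      (Finset.sum_nonneg fun _ _ => Finset.sum_nonneg fun _ _ => by split_ifs <;> norm_num)
  -- the estimate on a line of the box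
  have hline' : ∀ n ∈ bxs N, |(N l : ℝ)⁻¹ * ∑ t ∈ Finset.range (N l),
      ∏ v, F v (Φ (q (Function.update n l t) v) x)| ≤
      (if ∀ v ∈ V l, Cnt ℓ q R C v l n then (0 : ℝ) else 1) +
        (η / 2 + (N l : ℝ)⁻¹ * ∑ t ∈ Finset.range (N l),
          errb Φ ℓ R H S (q (Function.update n l t)) x) := by
    intro n hn
    have hE0 : 0 ≤ (N l : ℝ)⁻¹ * ∑ t ∈ Finset.range (N l),
        errb Φ ℓ R H S (q (Function.update n l t)) x :=
      mul_nonneg (inv_pos.2 hNlpos).le (Finset.sum_nonneg fun t _ => herr0 _)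
    split_ifs with hreg
    · rw [zero_add]
      have hn0 : cut U n ∈ bxs (fun _ : Fin k => N l) := by
        rw [mem_bxs] at hn ⊢
        intro j
        unfold cut
        split_ifs with hj
        · exact (hn j).trans_le (hl j hj)
        · exact hN1 l
      have hreg0 : ∀ v ∈ V l, Cnt ℓ q R C v l (cut U n) := by
        intro v hv a A hA'
        refine hreg v hv a A fun t ht => ?_
        have h3 := hA' t ht
        rw [← cut_update hlU, hqcut v (hVS l hv)] at h3
        exact h3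
      have h4 := hline (cut U n) hn0 hreg0
      have e1 : ∀ t, ∏ v, F v (Φ (q (Function.update (cut U n) l t) v) x) =
          ∏ v, F v (Φ (q (Function.update n l t) v) x) := by
        intro t
        rw [← cut_update hlU, hgcut]
      have e2 : ∀ t, errb Φ ℓ R H S (q (Function.update (cut U n) l t)) x =
          errb Φ ℓ R H S (q (Function.update n l t)) x := by
        intro t
        refine errb_congr (fun v hv => ?_) x
        rw [← cut_update hlU, hqcut v hv]
      simp only [e1, e2] at h4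
      exact h4
    · have h5 : |(N l : ℝ)⁻¹ * ∑ t ∈ Finset.range (N l),
          ∏ v, F v (Φ (q (Function.update n l t) v) x)| ≤ 1 := by
        rw [abs_mul, abs_of_pos (inv_pos.2 hNlpos)]
        have h6 : |∑ t ∈ Finset.range (N l),
            ∏ v, F v (Φ (q (Function.update n l t) v) x)| ≤ N l := by
          refine (Finset.abs_sum_le_sum_abs _ _).trans ?_
          refine (Finset.sum_le_sum (g := fun _ => (1 : ℝ)) fun t _ => ?_).trans (by simp)
          exact prod_abs_le (fun w _ => hF1 w) _ x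
        calc (N l : ℝ)⁻¹ * _ ≤ (N l : ℝ)⁻¹ * N l :=
              mul_le_mul_of_nonneg_left h6 (inv_pos.2 hNlpos).le
          _ = 1 := inv_mul_cancel₀ hNlpos.ne'
      linarith
  rw [bx_slice hN1 l]
  refine bx_abs.trans ((bx_mono_of hline').trans ?_)
  rw [bx_add, bx_add, ← bx_slice hN1 l (fun n => errb Φ ℓ R H S (q n) x)]
  have h7 : bx k N (fun n => if ∀ v ∈ V l, Cnt ℓ q R C v l n then (0 : ℝ) else 1) ≤ η / 2 :=
    hCM l N fun j => (le_max_right _ _).trans (hN j)
  have h8 := bx_const_le (k := k) (N := N) (C := η / 2) (by positivity)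
  linarith

end Pool.Agent.H69N.KP
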