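import Pool.Agent.H69N.KP.ZeroP

/-!
# Approximation by functions with finite memory
-/

set_option autoImplicit false
set_option linter.unusedSectionVars false

open MeasureTheory Filter Topology
open scoped ENNReal

noncomputable section

namespace Pool.Agent.H69N.KP

open Pool.Agent.TH784.KE
open Pool.Agent.W761.Box (bx bxc BM Good1 bx_add bx_mul bx_sum bx_mono bx_abs bx_const_le
  bx_nonneg prod_update bxc_sub bxc_norm int_lim_le')

variable {X : Type*} {mA mY mX : MeasurableSpace X} {μ : Measure X} [IsProbabilityMeasure μ]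
variable {G : Type*} [Group G]
variable {Φ : G →* Equiv.Perm X} {ℓ : G → ℝ}
variable {J : Type*} [DecidableEq J] [Fintype J] {k : ℕ}

/-- finite memory, no expectation given the past -/
def Fin0 (μ : Measure X) (mA : MeasurableSpace X) (Φ : G →* Equiv.Perm X) (F : X → ℂ) : Prop :=
  @BM X mX F ∧ (∃ r : G, Measurable[cm mA Φ r] F) ∧
    ∃ s : G, ∀ B : Set X, MeasurableSet[cm mA Φ s] B → ∫ x in B, F x ∂μ = 0

/-- approximation along the averages -/
def App (μ : Measure X) (mA : MeasurableSpace X) (Φ : G →* Equiv.Perm X)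
    (g : (Fin k → ℕ) → X → X) (h : X → ℂ) : Prop :=
  ∀ ε δ : ℝ, 0 < ε → 0 < δ → ∃ F : X → ℂ, Fin0 (mX := mX) μ mA Φ F ∧
    μ {x | ¬ ∀ᶠ N in atTop, bx k N (fun n => ‖h (g n x) - F (g n x)‖) ≤ δ} ≤ ENNReal.ofReal ε

theorem Cz_app {g : J → (Fin k → ℕ) → X → X} {F : J → X → ℂ} (hF : ∀ l, @BM X mX (F l)) {j : J}
    {f : X → ℂ}
    (h : ∀ ε δ : ℝ, 0 < ε → 0 < δ → ∃ f' : X → ℂ,
      μ {x | ¬ ∀ᶠ N in atTop, bx k N (fun n => ‖f (g j n x) - f' (g j n x)‖) ≤ δ} ≤
        ENNReal.ofReal ε ∧ Cz μ g (Function.update F j f')) :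
    Cz μ g (Function.update F j f) := by
  choose hFm CF hCF using hF
  set D : ℝ := ∏ l ∈ Finset.univ.erase j, (|CF l| + 1) with hD
  have hD0 : 0 < D := Finset.prod_pos fun l _ => by positivity
  have hDb : ∀ (m : Fin k → ℕ) (x : X),
      ‖∏ l ∈ Finset.univ.erase j, F l (g l m x)‖ ≤ D := by
    intro m x
    rw [norm_prod]
    apply Finset.prod_le_prod (fun l _ => norm_nonneg _)
    intro l _
    exact ((hCF l _).trans (le_abs_self _)).trans (by linarith)
  set G' := Function.update F j f with hG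
  let Av : (J → X → ℂ) → (Fin k → ℕ) → X → ℂ :=
    fun E N x => bxc k N (fun m => ∏ l, E l (g l m x))
  have hbad : ∀ δ : ℝ, 0 < δ → ∀ᵐ x ∂μ, ∀ᶠ N in atTop, ‖Av G' N x‖ ≤ δ := by
    intro δ hδ
    rw [ae_iff, ← nonpos_iff_eq_zero]
    apply ENNReal.le_of_forall_pos_le_add
    intro ε hε _
    rw [zero_add]
    have hε' : (0 : ℝ) < ε := by exact_mod_cast hε
    obtain ⟨f', hf', hcv⟩ := h ε (δ / (2 * D)) hε' (by positivity)
    rw [ENNReal.ofReal_coe_nnreal] at hf'
    refine (measure_mono_ae ?_).trans hf'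
    filter_upwards [hcv] with x hx2 hx3
    show ¬ ∀ᶠ N in atTop, bx k N (fun n => ‖f (g j n x) - f' (g j n x)‖) ≤ δ / (2 * D)
    intro hcon
    apply hx3
    have hx2' := hx2.norm
    rw [norm_zero] at hx2'
    have h3 := (tendsto_order.mp hx2').2 (δ / 2) (by positivity)
    filter_upwards [hcon, h3] with N hN1 hN2
    have hclose : ‖Av G' N x - Av (Function.update F j f') N x‖ ≤ δ / 2 := by
      show ‖bxc k N (fun m => ∏ l, G' l (g l m x)) -
        bxc k N (fun m => ∏ l, (Function.update F j f') l (g l m x))‖ ≤ δ / 2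
      rw [← bxc_sub]
      refine (bxc_norm _ _ _).trans ?_
      have h3 : ∀ m, ‖∏ l, G' l (g l m x) - ∏ l, (Function.update F j f') l (g l m x)‖ ≤
          D * ‖f (g j m x) - f' (g j m x)‖ := by
        intro m
        rw [hG, prod_update, prod_update, ← sub_mul, norm_mul, mul_comm]
        exact mul_le_mul_of_nonneg_right (hDb _ x) (norm_nonneg _)
      refine (bx_mono h3).trans ?_
      rw [bx_mul]
      calc D * bx k N (fun m => ‖f (g j m x) - f' (g j m x)‖) ≤ D * (δ / (2 * D)) :=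
            mul_le_mul_of_nonneg_left hN1 hD0.le
        _ = δ / 2 := by field_simp
    have e1 : Av G' N x = (Av G' N x - Av (Function.update F j f') N x) +
        Av (Function.update F j f') N x := by ring
    rw [e1]
    have b1 := norm_add_le (Av G' N x - Av (Function.update F j f') N x)
      (Av (Function.update F j f') N x)
    have b2 : ‖Av (Function.update F j f') N x‖ < δ / 2 := hN2
    linarith
  have hall := ae_all_iff.mpr fun i : ℕ => hbad (1 / ((i : ℝ) + 1)) (by positivity)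
  filter_upwards [hall] with x hx
  rw [Metric.tendsto_nhds]
  intro ε hε
  obtain ⟨i, hi⟩ := exists_nat_one_div_lt hε
  filter_upwards [hx i] with N hN
  rw [dist_eq_norm, sub_zero]
  exact hN.trans_lt hi

/-- **Convergence to zero for approximable functions.** -/
theorem zero_app (hK : KExt μ mA mY Φ ℓ) {s₀ : G} (hs₀ : 0 < ℓ s₀)
    {S : Finset J} {q : (Fin k → ℕ) → J → G} {U : Finset (Fin k)} {dep : J → Fin k → Prop}
    (hP : Pol ℓ q S U dep)
    {F : J → X → ℂ} (hF : ∀ v, @BM X mX (F v))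
    (hS : ∀ v ∈ S, App (mX := mX) μ mA Φ (fun n => (Φ (q n v) : X → X)) (F v))
    (hSc : ∀ v ∉ S, Measurable[mY] (F v) ∧ InvU Φ q U v (F v)) :
    Cz μ (fun v n => (Φ (q n v) : X → X)) F := by
  classical
  have key : ∀ (B : Finset J) (F : J → X → ℂ), (∀ v, @BM X mX (F v)) →
      (∀ v ∈ B, v ∈ S → App (mX := mX) μ mA Φ (fun n => (Φ (q n v) : X → X)) (F v)) →
      (∀ v ∉ B, v ∈ S → Fin0 (mX := mX) μ mA Φ (F v)) →
      (∀ v ∉ S, Measurable[mY] (F v) ∧ InvU Φ q U v (F v)) →
      Cz μ (fun v n => (Φ (q n v) : X → X)) F := by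
    intro B
    induction B using Finset.induction_on with
    | empty =>
      intro F hF _ h2 h3
      exact zero_complexR hK hs₀ hP fun v => ⟨hF v, fun hv =>
        (h2 v (Finset.notMem_empty v) hv).2, fun hv => h3 v hv⟩
    | insert v B hv ih =>
      intro F hF h1 h2 h3
      by_cases hvS : v ∈ S
      · rw [← Function.update_eq_self v F]
        refine Cz_app hF fun ε δ hε hδ => ?_
        obtain ⟨f', hf', hmeas⟩ := h1 v (Finset.mem_insert_self v B) hvS ε δ hε hδ
        refine ⟨f', hmeas, ih _ (fun w => ?_) (fun w hw hwS => ?_) (fun w hw hwS => ?_)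
          fun w hw => ?_⟩
        · by_cases hwv : w = v
          · subst hwv
            rw [Function.update_self]
            exact hf'.1
          · rw [Function.update_of_ne hwv]
            exact hF w
        · have hwv : w ≠ v := fun e => hv (e ▸ hw)
          rw [Function.update_of_ne hwv]
          exact h1 w (Finset.mem_insert_of_mem hw) hwS
        · by_cases hwv : w = v
          · subst hwv
            rw [Function.update_self]
            exact hf'
          · rw [Function.update_of_ne hwv]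
            refine h2 w (fun h => ?_) hwS
            rcases Finset.mem_insert.1 h with h | h
            · exact hwv h
            · exact hw h
        · have hwv : w ≠ v := fun e => hw (e ▸ hvS)
          rw [Function.update_of_ne hwv]
          exact h3 w hw
      · refine ih F hF (fun w hw hwS => h1 w (Finset.mem_insert_of_mem hw) hwS)
          (fun w hw hwS => ?_) h3
        refine h2 w (fun h => ?_) hwS
        rcases Finset.mem_insert.1 h with h | h
        · exact hvS (h ▸ hwS)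
        · exact hw h
  exact key Finset.univ F hF (fun v _ hv => hS v hv)
    (fun v hv => absurd (Finset.mem_univ v) hv) hSc

/-- a function with finite memory is approximable -/
theorem App.of_fin {g : (Fin k → ℕ) → X → X} {h : X → ℂ} (hh : Fin0 (mX := mX) μ mA Φ h) :
    App (mX := mX) μ mA Φ g h := by
  intro ε δ _ hδ
  refine ⟨h, hh, ?_⟩
  have : {x | ¬ ∀ᶠ N in atTop, bx k N (fun n => ‖h (g n x) - h (g n x)‖) ≤ δ} = ∅ := by
    ext x
    simp only [Set.mem_ofPred_eq, Set.mem_empty_iff_false, iff_false, not_not]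
    refine Eventually.of_forall fun N => ?_
    refine le_trans ?_ (bx_const_le (k := k) (N := N) hδ.le)
    refine bx_mono fun n => ?_
    rw [sub_self, norm_zero]
    exact hδ.le
  rw [this, measure_empty]
  exact bot_le

/-- approximation in the mean by functions with finite memory, real functions -/
theorem fin_dense_real (hK : KExt μ mA mY Φ ℓ) {s₀ : G} (hs₀ : 0 < ℓ s₀) {h : X → ℝ}
    (hm : Measurable h) (hb : ∀ x, |h x| ≤ 1) (hV : Van μ mY h) {ε : ℝ} (hε : 0 < ε) :
    ∃ F : X → ℝ, (∀ x, |F x| ≤ 2) ∧ (∃ r s : G, ℓ s ≤ ℓ r ∧ Measurable[cm mA Φ r] F ∧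
      ∀ B : Set X, MeasurableSet[cm mA Φ s] B → ∫ x in B, F x ∂μ = 0) ∧
      ∫ x, |h x - F x| ∂μ ≤ ε := by
  obtain ⟨r, hr⟩ := dense_future hK.fl hK.filt hs₀ hK.gen hm hb (half_pos hε)
  obtain ⟨s₁, hs₁⟩ := small_past' hK.fl hK.filt hs₀ hK.tail hm hb hV (half_pos hε)
  obtain ⟨s, hs⟩ := exists_lower (J := Bool) hK.filt hs₀ (fun b => if b then s₁ else r)
  have hss₁ : ℓ s ≤ ℓ s₁ := hs true
  have hsr : ℓ s ≤ ℓ r := hs false
  obtain ⟨g₁, hg₁, hge₁⟩ := exists_CE (μ := μ) (cm_le hK.fl hK.filt r) hm hb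
  obtain ⟨g₂, hg₂, hge₂⟩ := exists_CE (μ := μ) (cm_le hK.fl hK.filt s) hm hb
  have hm₁ : Measurable g₁ := hg₁.1.mono (cm_le hK.fl hK.filt r) le_rfl
  have hm₂ : Measurable g₂ := hg₂.1.mono (cm_le hK.fl hK.filt s) le_rfl
  have hi : Integrable h μ := Integrable.of_bound hm.aestronglyMeasurable 1
    (Eventually.of_forall hb)
  have hi₁ : Integrable g₁ μ := Integrable.of_bound hm₁.aestronglyMeasurable 1
    (Eventually.of_forall hg₁.2.1)
  have hi₂ : Integrable g₂ μ := Integrable.of_bound hm₂.aestronglyMeasurable 1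
    (Eventually.of_forall hg₂.2.1)
  have hset : ∀ (t : G) (g : X → ℝ), CE μ (cm mA Φ t) h g → Integrable g μ →
      ∀ B, MeasurableSet[cm mA Φ t] B → ∫ x in B, g x ∂μ = ∫ x in B, h x ∂μ := by
    intro t g hg hgi B hB
    have h1 := hg.2.2 (B.indicator fun _ => 1) (measurable_const.indicator hB)
      ⟨1, fun x => by
        by_cases hx : x ∈ B
        · rw [Set.indicator_of_mem hx]; simp
        · rw [Set.indicator_of_notMem hx]; simp⟩
    have hBX : MeasurableSet B := cm_le hK.fl hK.filt t _ hB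
    have e : ∀ x, (h x - g x) * B.indicator (fun _ => (1 : ℝ)) x =
        B.indicator (fun x => h x - g x) x := by
      intro x
      by_cases hx : x ∈ B
      · rw [Set.indicator_of_mem hx, Set.indicator_of_mem hx, mul_one]
      · rw [Set.indicator_of_notMem hx, Set.indicator_of_notMem hx, mul_zero]
    simp only [e] at h1
    rw [integral_indicator hBX, integral_sub hi.integrableOn hgi.integrableOn] at h1
    linarith
  refine ⟨fun x => g₁ x - g₂ x, fun x => ?_, ⟨r, s, hsr, ?_, fun B hB => ?_⟩, ?_⟩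
  · refine (abs_sub _ _).trans ?_
    linarith [hg₁.2.1 x, hg₂.2.1 x]
  · exact hg₁.1.sub (hg₂.1.mono (cm_mono hK.filt hsr) le_rfl)
  · rw [integral_sub hi₁.integrableOn hi₂.integrableOn,
      hset r g₁ hg₁ hi₁ B (cm_mono hK.filt hsr _ hB), hset s g₂ hg₂ hi₂ B hB, sub_self]
  · have h1 : ∫ x, |h x - g₁ x| ∂μ ≤ ε / 2 := by
      refine le_trans (le_of_eq ?_) hr
      refine integral_congr_ae ?_
      filter_upwards [hge₁] with x hx
      rw [hx]
    have h2 : ∫ x, |g₂ x| ∂μ ≤ ε / 2 := by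
      refine le_trans (le_of_eq ?_) (hs₁ s hss₁)
      refine integral_congr_ae ?_
      filter_upwards [hge₂] with x hx
      rw [hx]
    calc ∫ x, |h x - (g₁ x - g₂ x)| ∂μ ≤ ∫ x, (|h x - g₁ x| + |g₂ x|) ∂μ := by
          refine integral_mono (hi.sub (hi₁.sub hi₂)).abs ((hi.sub hi₁).abs.add hi₂.abs)
            fun x => ?_
          have : h x - (g₁ x - g₂ x) = (h x - g₁ x) + g₂ x := by ring
          show |h x - (g₁ x - g₂ x)| ≤ |h x - g₁ x| + |g₂ x|
          rw [this]
          exact abs_add_le _ _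
      _ = ∫ x, |h x - g₁ x| ∂μ + ∫ x, |g₂ x| ∂μ := integral_add (hi.sub hi₁).abs hi₂.abs
      _ ≤ ε := by linarith

/-- approximation in the mean by functions with finite memory -/
theorem fin_dense (hK : KExt μ mA mY Φ ℓ) {s₀ : G} (hs₀ : 0 < ℓ s₀) {h : X → ℂ}
    (hb : @BM X mX h) (hV : ∀ B : Set X, MeasurableSet[mY] B → ∫ x in B, h x ∂μ = 0)
    {ε : ℝ} (hε : 0 < ε) :
    ∃ F : X → ℂ, Fin0 (mX := mX) μ mA Φ F ∧ ∫ x, ‖h x - F x‖ ∂μ ≤ ε := by
  obtain ⟨hm, C₀, hC₀⟩ := hb
  set C : ℝ := |C₀| + 1 with hC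
  have hCpos : 0 < C := by positivity
  have hCb : ∀ x, ‖h x‖ ≤ C := fun x =>
    ((hC₀ x).trans (le_abs_self _)).trans (by rw [hC]; linarith)
  have hi : Integrable h μ := Integrable.of_bound hm.aestronglyMeasurable C
    (Eventually.of_forall hCb)
  have hb₁ : ∀ x, |(h x).re / C| ≤ 1 := by
    intro x
    rw [abs_div, abs_of_pos hCpos, div_le_one hCpos]
    exact (Complex.abs_re_le_norm _).trans (hCb x)
  have hb₂ : ∀ x, |(h x).im / C| ≤ 1 := by
    intro x
    rw [abs_div, abs_of_pos hCpos, div_le_one hCpos]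
    exact (Complex.abs_im_le_norm _).trans (hCb x)
  have hm₁ : Measurable fun x => (h x).re / C := (Complex.measurable_re.comp hm).div_const _
  have hm₂ : Measurable fun x => (h x).im / C := (Complex.measurable_im.comp hm).div_const _
  have hV₁ : Van μ mY fun x => (h x).re / C := by
    intro B hB
    have h5 : ∫ x in B, (h x).re / C ∂μ = (∫ x in B, h x ∂μ).re / C := by
      rw [integral_div]
      congr 1
      exact integral_re hi.integrableOn
    rw [h5, hV B hB]
    simp
  have hV₂ : Van μ mY fun x => (h x).im / C := by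
    intro B hB
    have h5 : ∫ x in B, (h x).im / C ∂μ = (∫ x in B, h x ∂μ).im / C := by
      rw [integral_div]
      congr 1
      exact integral_im hi.integrableOn
    rw [h5, hV B hB]
    simp
  have hε' : 0 < ε / (2 * C) := by positivity
  obtain ⟨F₁, hF₁b, ⟨r₁, s₁, -, hF₁m, hF₁0⟩, hF₁e⟩ := fin_dense_real hK hs₀ hm₁ hb₁ hV₁ hε'
  obtain ⟨F₂, hF₂b, ⟨r₂, s₂, -, hF₂m, hF₂0⟩, hF₂e⟩ := fin_dense_real hK hs₀ hm₂ hb₂ hV₂ hε'
  obtain ⟨r, hr⟩ := exists_upper (J := Bool) hK.filt hs₀ (fun b => if b then r₁ else r₂)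
  obtain ⟨s, hs⟩ := exists_lower (J := Bool) hK.filt hs₀ (fun b => if b then s₁ else s₂)
  have hr₁ : ℓ r₁ ≤ ℓ r := hr true
  have hr₂ : ℓ r₂ ≤ ℓ r := hr false
  have hs₁ : ℓ s ≤ ℓ s₁ := hs true
  have hs₂ : ℓ s ≤ ℓ s₂ := hs false
  have hM₁ : Measurable F₁ := hF₁m.mono (cm_le hK.fl hK.filt r₁) le_rfl
  have hM₂ : Measurable F₂ := hF₂m.mono (cm_le hK.fl hK.filt r₂) le_rfl
  have hI₁ : Integrable F₁ μ := Integrable.of_bound hM₁.aestronglyMeasurable 2
    (Eventually.of_forall hF₁b)
  have hI₂ : Integrable F₂ μ := Integrable.of_bound hM₂.aestronglyMeasurable 2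
    (Eventually.of_forall hF₂b)
  have hI₁' : Integrable (fun x => (F₁ x : ℂ)) μ := hI₁.ofReal
  have hI₂' : Integrable (fun x => (F₂ x : ℂ)) μ := hI₂.ofReal
  set F : X → ℂ := fun x => (C : ℂ) * (F₁ x : ℂ) + (C : ℂ) * Complex.I * (F₂ x : ℂ) with hF
  have hFmr : Measurable[cm mA Φ r] F := by
    have h1 : Measurable[cm mA Φ r] fun x => (F₁ x : ℂ) :=
      Complex.measurable_ofReal.comp (hF₁m.mono (cm_mono hK.filt hr₁) le_rfl)
    have h2 : Measurable[cm mA Φ r] fun x => (F₂ x : ℂ) :=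
      Complex.measurable_ofReal.comp (hF₂m.mono (cm_mono hK.filt hr₂) le_rfl)
    exact (h1.const_mul _).add (h2.const_mul _)
  refine ⟨F, ⟨⟨hFmr.mono (cm_le hK.fl hK.filt r) le_rfl, C * 2 + C * 2, fun x => ?_⟩,
    ⟨r, hFmr⟩, s, fun B hB => ?_⟩, ?_⟩
  · refine (norm_add_le _ _).trans (add_le_add ?_ ?_)
    · rw [norm_mul, Complex.norm_real, Complex.norm_real, Real.norm_of_nonneg hCpos.le]
      exact mul_le_mul_of_nonneg_left (hF₁b x) hCpos.le
    · rw [norm_mul, norm_mul, Complex.norm_I, mul_one, Complex.norm_real, Complex.norm_real,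
        Real.norm_of_nonneg hCpos.le]
      exact mul_le_mul_of_nonneg_left (hF₂b x) hCpos.le
  · have e1 : ∫ x in B, (F₁ x : ℂ) ∂μ = ((∫ x in B, F₁ x ∂μ : ℝ) : ℂ) := integral_ofReal
    have e2 : ∫ x in B, (F₂ x : ℂ) ∂μ = ((∫ x in B, F₂ x ∂μ : ℝ) : ℂ) := integral_ofReal
    rw [hF, integral_add (hI₁'.const_mul _).integrableOn (hI₂'.const_mul _).integrableOn,
      integral_const_mul, integral_const_mul, e1, e2,
      hF₁0 B (cm_mono hK.filt hs₁ _ hB), hF₂0 B (cm_mono hK.filt hs₂ _ hB)]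
    simp
  · have hpt : ∀ x, ‖h x - F x‖ ≤ C * |(h x).re / C - F₁ x| + C * |(h x).im / C - F₂ x| := by
      intro x
      have e : h x - F x = (C : ℂ) * (((h x).re / C - F₁ x : ℝ) : ℂ) +
          (C : ℂ) * Complex.I * (((h x).im / C - F₂ x : ℝ) : ℂ) := by
        have hC' : (C : ℂ) ≠ 0 := by exact_mod_cast hCpos.ne'
        have h9 : h x = ((h x).re : ℂ) + ((h x).im : ℂ) * Complex.I := (Complex.re_add_im _).symm
        conv_lhs => rw [h9]
        rw [hF]
        push_cast
        field_simp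
        ring
      rw [e]
      refine (norm_add_le _ _).trans (add_le_add (le_of_eq ?_) (le_of_eq ?_))
      · rw [norm_mul, Complex.norm_real, Complex.norm_real, Real.norm_of_nonneg hCpos.le,
          Real.norm_eq_abs]
      · rw [norm_mul, norm_mul, Complex.norm_I, mul_one, Complex.norm_real, Complex.norm_real,
          Real.norm_of_nonneg hCpos.le, Real.norm_eq_abs]
    have hIa : Integrable (fun x => |(h x).re / C - F₁ x|) μ := (hi.re.div_const C |>.sub hI₁).abs
    have hIb : Integrable (fun x => |(h x).im / C - F₂ x|) μ := (hi.im.div_const C |>.sub hI₂).abs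
    calc ∫ x, ‖h x - F x‖ ∂μ ≤
          ∫ x, (C * |(h x).re / C - F₁ x| + C * |(h x).im / C - F₂ x|) ∂μ := by
          refine integral_mono_of_nonneg (Eventually.of_forall fun x => norm_nonneg _)
            ((hIa.const_mul C).add (hIb.const_mul C)) (Eventually.of_forall hpt)
      _ = C * ∫ x, |(h x).re / C - F₁ x| ∂μ + C * ∫ x, |(h x).im / C - F₂ x| ∂μ := by
          rw [integral_add (hIa.const_mul C) (hIb.const_mul C), integral_const_mul,
            integral_const_mul]
      _ ≤ C * (ε / (2 * C)) + C * (ε / (2 * C)) :=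
          add_le_add (mul_le_mul_of_nonneg_left hF₁e hCpos.le)
            (mul_le_mul_of_nonneg_left hF₂e hCpos.le)
      _ = ε := by field_simp; ring

/-- if the averages of single functions converge, every function without expectation on the base
is approximable -/
theorem App.of_good (hK : KExt μ mA mY Φ ℓ) {s₀ : G} (hs₀ : 0 < ℓ s₀)
    {g : (Fin k → ℕ) → X → X} (hg : ∀ n, MeasurePreserving (g n) μ μ) (hgood : Good1 μ g)
    {h : X → ℂ} (hb : @BM X mX h)
    (hV : ∀ B : Set X, MeasurableSet[mY] B → ∫ x in B, h x ∂μ = 0) :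
    App (mX := mX) μ mA Φ g h := by
  intro ε δ hε hδ
  obtain ⟨F, hF, hFe⟩ := fin_dense hK hs₀ hb hV (ε := ε * (δ / 2)) (by positivity)
  refine ⟨F, hF, ?_⟩
  obtain ⟨hm, C₁, hC₁⟩ := hb
  obtain ⟨hFm, C₂, hC₂⟩ := hF.1
  let K : X → ℝ := fun x => ‖h x - F x‖
  have hKm : Measurable K := (hm.sub hFm).norm
  have hKb : ∀ x, |K x| ≤ |C₁ + C₂| := fun x => by
    show |‖h x - F x‖| ≤ _
    rw [abs_of_nonneg (norm_nonneg _)]
    exact ((norm_sub_le _ _).trans (add_le_add (hC₁ x) (hC₂ x))).trans (le_abs_self _)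
  have hB := hgood K hKm ⟨_, hKb⟩
  let E : X → ℝ := fun x => limUnder atTop (fun N => bx k N fun m => K (g m x))
  have hE : ∀ᵐ x ∂μ, Tendsto (fun N => bx k N fun m => K (g m x)) atTop (𝓝 (E x)) := by
    filter_upwards [hB] with x hx
    exact tendsto_nhds_limUnder hx
  obtain ⟨hE0, hEi, hEint⟩ := int_lim_le' hg hKm (abs_nonneg _) hKb
    (fun x => norm_nonneg _) hE
  have hmark := mul_meas_ge_le_integral_of_nonneg hE0 hEi (δ / 2)
  have hmark' : μ.real {x | δ / 2 ≤ E x} ≤ ε := by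
    have h1 : δ / 2 * μ.real {x | δ / 2 ≤ E x} ≤ δ / 2 * ε := by
      refine hmark.trans ((hEint.trans hFe).trans ?_)
      rw [mul_comm]
    exact le_of_mul_le_mul_left h1 (by positivity)
  have h10 : μ {x | ¬ ∀ᶠ N in atTop, bx k N (fun n => ‖h (g n x) - F (g n x)‖) ≤ δ} ≤
      μ {x | δ / 2 ≤ E x} := by
    apply measure_mono_ae
    filter_upwards [hE] with x hx1 hx3
    show δ / 2 ≤ E x
    by_contra hcon
    rw [not_le] at hcon
    apply hx3
    have h2 := (tendsto_order.mp hx1).2 _ (hcon.trans (half_lt_self hδ))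
    filter_upwards [h2] with N hN
    exact hN.le
  refine h10.trans ?_
  have h9 : μ {x | δ / 2 ≤ E x} = ENNReal.ofReal (μ.real {x | δ / 2 ≤ E x}) := by
    rw [measureReal_def, ENNReal.ofReal_toReal (measure_ne_top _ _)]
  rw [h9]
  exact ENNReal.ofReal_le_ofReal hmark'

end Pool.Agent.H69N.KP
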