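import Pool.Agent.H69N.KP.Stm

/-!
# Real polynomials on boxes are rarely small: proofs
-/

set_option autoImplicit false

open Filter Topology

namespace Pool.Agent.H69N.KP

/-! ### One variable -/

theorem gap {n : ℕ} (f : Fin n → ℕ) (hf : StrictMono f) (d : ℕ) :
    ∀ i j : Fin n, (j : ℕ) = i + d → f i + d ≤ f j := by
  induction d with
  | zero =>
    intro i j h
    have : i = j := Fin.ext (by omega)
    rw [this]
    exact le_rfl
  | succ d ih =>
    intro i j h
    have hj := j.2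
    have h1 := ih i ⟨(i : ℕ) + d, by omega⟩ rfl
    have h2 : f ⟨(i : ℕ) + d, by omega⟩ < f j := hf (Fin.lt_def.2 (by simp only; omega))
    omega

/-- the number of close values of a polynomial of degree at most `e` with a large coefficient -/
theorem one_var (e : ℕ) (he : 1 ≤ e) (κ R : ℝ) (hκ : 0 < κ) (P : Polynomial ℝ)
    (hP : P.natDegree ≤ e) (hc : κ ≤ |P.coeff e|) (a : ℝ) (A : Finset ℕ)
    (hA : ∀ t ∈ A, |P.eval (t : ℝ) - a| < R) : A.card ≤ e * (⌈(e + 1) * R / κ⌉₊ + 1) := by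
  classical
  by_contra hcon
  push Not at hcon
  set N₀ := ⌈(e + 1) * R / κ⌉₊ + 1 with hN₀
  have hu : ∀ i : Fin (e + 1), (i : ℕ) * N₀ < A.card := by
    intro i
    have h1 : (i : ℕ) ≤ e := by omega
    exact lt_of_le_of_lt (Nat.mul_le_mul_right _ h1) hcon
  let u : Fin (e + 1) → ℕ := fun i => A.orderEmbOfFin rfl ⟨(i : ℕ) * N₀, hu i⟩
  have hN1 : 1 ≤ N₀ := by omega
  have hgap : ∀ i j : Fin (e + 1), i < j → u i + N₀ ≤ u j := by
    intro i j hij
    have h1 := gap (A.orderEmbOfFin rfl) (A.orderEmbOfFin rfl).strictMono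
      (((j : ℕ) - i) * N₀) ⟨(i : ℕ) * N₀, hu i⟩ ⟨(j : ℕ) * N₀, hu j⟩ (by
        show (j : ℕ) * N₀ = (i : ℕ) * N₀ + ((j : ℕ) - i) * N₀
        rw [← add_mul]
        congr 1
        have := Fin.lt_def.1 hij
        omega)
    have h2 : N₀ ≤ ((j : ℕ) - i) * N₀ := by
      have := Fin.lt_def.1 hij
      calc N₀ = 1 * N₀ := (one_mul _).symm
        _ ≤ _ := Nat.mul_le_mul_right _ (by omega)
    show u i + N₀ ≤ u j
    have h3 : u i + ((j : ℕ) - i) * N₀ ≤ u j := h1
    omega
  let v : Fin (e + 1) → ℝ := fun i => (u i : ℝ)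
  have hdist : ∀ i j : Fin (e + 1), i ≠ j → (N₀ : ℝ) ≤ |v i - v j| := by
    intro i j hij
    rcases lt_or_gt_of_ne hij with h | h
    · have h1 : ((u i + N₀ : ℕ) : ℝ) ≤ (u j : ℝ) := Nat.cast_le.2 (hgap i j h)
      push_cast at h1
      rw [abs_sub_comm]
      exact le_trans (by show (N₀ : ℝ) ≤ (u j : ℝ) - (u i : ℝ); linarith) (le_abs_self _)
    · have h1 : ((u j + N₀ : ℕ) : ℝ) ≤ (u i : ℝ) := Nat.cast_le.2 (hgap j i h)
      push_cast at h1
      exact le_trans (by show (N₀ : ℝ) ≤ (u i : ℝ) - (u j : ℝ); linarith) (le_abs_self _)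
  have hN0R : (0 : ℝ) < N₀ := by exact_mod_cast hN1
  have hN1R : (1 : ℝ) ≤ N₀ := by exact_mod_cast hN1
  have hinj : Set.InjOn v (Finset.univ : Finset (Fin (e + 1))) := by
    intro i _ j _ hij
    by_contra hne
    have h1 := hdist i j hne
    rw [hij, sub_self, abs_zero] at h1
    linarith
  have hdeg : (P - Polynomial.C a).degree < (Finset.univ : Finset (Fin (e + 1))).card := by
    rw [Finset.card_univ, Fintype.card_fin]
    refine lt_of_le_of_lt Polynomial.degree_le_natDegree ?_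
    have h1 : (P - Polynomial.C a).natDegree ≤ e :=
      (Polynomial.natDegree_sub_C (a := a)).le.trans hP
    exact_mod_cast Nat.lt_succ_of_le h1
  have hcoeff := Lagrange.coeff_eq_sum hinj hdeg
  rw [Finset.card_univ, Fintype.card_fin, Nat.add_sub_cancel, Polynomial.coeff_sub,
    Polynomial.coeff_C_of_ne_zero (by omega : e ≠ 0), sub_zero] at hcoeff
  have hval : ∀ i, |(P - Polynomial.C a).eval (v i)| < R := by
    intro i
    rw [Polynomial.eval_sub, Polynomial.eval_C]
    exact hA (u i) (Finset.orderEmbOfFin_mem _ _ _)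
  have hR : 0 < R := lt_of_le_of_lt (abs_nonneg _) (hval 0)
  have hbd : |P.coeff e| ≤ ∑ _i : Fin (e + 1), R / N₀ := by
    rw [hcoeff]
    refine (Finset.abs_sum_le_sum_abs _ _).trans (Finset.sum_le_sum fun i _ => ?_)
    rw [abs_div, Finset.abs_prod]
    have h1 : (N₀ : ℝ) ≤ ∏ j ∈ Finset.univ.erase i, |v i - v j| := by
      have h2 : (N₀ : ℝ) ^ e ≤ ∏ j ∈ Finset.univ.erase i, |v i - v j| := by
        have h3 : (Finset.univ.erase i).card = e := by
          rw [Finset.card_erase_of_mem (Finset.mem_univ _), Finset.card_univ, Fintype.card_fin,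
            Nat.add_sub_cancel]
        have h4 : ∏ _j ∈ Finset.univ.erase i, (N₀ : ℝ) ≤
            ∏ j ∈ Finset.univ.erase i, |v i - v j| :=
          Finset.prod_le_prod (fun _ _ => hN0R.le)
            fun j hj => hdist i j (Finset.ne_of_mem_erase hj).symm
        rwa [Finset.prod_const, h3] at h4
      exact (le_self_pow₀ hN1R (by omega)).trans h2
    have h5 : 0 < ∏ j ∈ Finset.univ.erase i, |v i - v j| := lt_of_lt_of_le hN0R h1
    exact div_le_div₀ hR.le (hval i).le hN0R h1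
  rw [Finset.sum_const, Finset.card_univ, Fintype.card_fin, nsmul_eq_mul] at hbd
  push_cast at hbd
  have h6 : (e + 1) * R / κ < N₀ := by
    rw [hN₀]
    push_cast
    exact lt_of_le_of_lt (Nat.le_ceil _) (lt_add_one _)
  rw [div_lt_iff₀ hκ] at h6
  have h7 : κ ≤ ((e : ℝ) + 1) * (R / N₀) := hc.trans hbd
  rw [← mul_div_assoc, le_div_iff₀ hN0R] at h7
  linarith

/-! ### The top coefficient in a direction -/

section top

variable {k : ℕ}

open MvPolynomial in
/-- the polynomial on the line in the direction `l` -/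
noncomputable def uni (l : Fin k) (n : Fin k → ℕ) (Q : MvPolynomial (Fin k) ℝ) : Polynomial ℝ :=
  aeval (fun j => if j = l then Polynomial.X else Polynomial.C (n j : ℝ)) Q

open MvPolynomial in
/-- the top coefficient -/
noncomputable def tp (l : Fin k) (Q : MvPolynomial (Fin k) ℝ) : MvPolynomial (Fin k) ℝ :=
  ∑ d ∈ Q.support with d l = Q.degreeOf l, monomial (d.erase l) (coeff d Q)

theorem uni_update (l : Fin k) (n : Fin k → ℕ) (t : ℕ) (Q : MvPolynomial (Fin k) ℝ) :
    uni l (Function.update n l t) Q = uni l n Q := by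
  unfold uni
  congr 1
  congr 1
  funext j
  by_cases h : j = l
  · rw [if_pos h, if_pos h]
  · rw [if_neg h, if_neg h, Function.update_of_ne h]

theorem eval_uni (l : Fin k) (n : Fin k → ℕ) (t : ℕ) (Q : MvPolynomial (Fin k) ℝ) :
    (uni l n Q).eval (t : ℝ) = ev Q (Function.update n l t) := by
  unfold uni ev
  rw [MvPolynomial.aeval_def, ← Polynomial.coe_evalRingHom, MvPolynomial.hom_eval₂]
  rw [← MvPolynomial.eval₂_id]
  congr 1
  · ext r
    simp
  · funext j
    by_cases h : j = l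
    · simp [h]
    · simp [h]

theorem uni_eq (l : Fin k) (n : Fin k → ℕ) (Q : MvPolynomial (Fin k) ℝ) :
    uni l n Q = ∑ d ∈ Q.support, Polynomial.C (Q.coeff d * ∏ j, (n j : ℝ) ^ (d.erase l j)) *
      Polynomial.X ^ (d l) := by
  unfold uni
  rw [MvPolynomial.aeval_def, MvPolynomial.eval₂_eq']
  refine Finset.sum_congr rfl fun d _ => ?_
  rw [← Finset.mul_prod_erase Finset.univ _ (Finset.mem_univ l), if_pos rfl]
  have h1 : ∏ j ∈ Finset.univ.erase l,
      (if j = l then Polynomial.X else Polynomial.C (n j : ℝ)) ^ (d j) =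
      Polynomial.C (∏ j, (n j : ℝ) ^ (d.erase l j)) := by
    rw [map_prod, ← Finset.mul_prod_erase Finset.univ (fun j => Polynomial.C
      ((n j : ℝ) ^ (d.erase l j))) (Finset.mem_univ l), Finsupp.erase_same, pow_zero, map_one,
      one_mul]
    refine Finset.prod_congr rfl fun j hj => ?_
    have h2 := Finset.ne_of_mem_erase hj
    rw [if_neg h2, Finsupp.erase_ne h2, map_pow]
  rw [h1, map_mul]
  show Polynomial.C (Q.coeff d) * _ = _
  ring

theorem uni_deg (l : Fin k) (n : Fin k → ℕ) (Q : MvPolynomial (Fin k) ℝ) :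
    (uni l n Q).natDegree ≤ Q.degreeOf l := by
  rw [uni_eq]
  refine Polynomial.natDegree_sum_le_of_forall_le _ _ fun d hd => ?_
  refine (Polynomial.natDegree_C_mul_X_pow_le _ _).trans ?_
  rw [MvPolynomial.degreeOf_eq_sup]
  exact Finset.le_sup (f := fun m : Fin k →₀ ℕ => m l) hd

theorem uni_coeff (l : Fin k) (n : Fin k → ℕ) (Q : MvPolynomial (Fin k) ℝ) :
    (uni l n Q).coeff (Q.degreeOf l) = ev (tp l Q) n := by
  classical
  rw [uni_eq, Polynomial.finsetSum_coeff]
  unfold ev tp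
  rw [map_sum, Finset.sum_filter]
  refine Finset.sum_congr rfl fun d _ => ?_
  rw [Polynomial.coeff_C_mul_X_pow]
  by_cases h : d l = Q.degreeOf l
  · rw [if_pos h.symm, if_pos h, MvPolynomial.eval_monomial, Finsupp.prod_fintype]
    intro i
    exact pow_zero _
  · rw [if_neg (fun h' => h h'.symm), if_neg h]

theorem ev_tp_update (l : Fin k) (n : Fin k → ℕ) (t : ℕ) (Q : MvPolynomial (Fin k) ℝ) :
    ev (tp l Q) (Function.update n l t) = ev (tp l Q) n := by
  rw [← uni_coeff, ← uni_coeff, uni_update]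

open MvPolynomial in
theorem coeff_tp (l : Fin k) (Q : MvPolynomial (Fin k) ℝ) (d : Fin k →₀ ℕ)
    (hd : d l = Q.degreeOf l) (hQ : d ∈ Q.support) : coeff (d.erase l) (tp l Q) = coeff d Q := by
  classical
  unfold tp
  rw [coeff_sum]
  rw [Finset.sum_eq_single d]
  · rw [coeff_monomial, if_pos rfl]
  · intro d' hd' hne
    rw [coeff_monomial, if_neg]
    intro h
    apply hne
    have h1 := (Finset.mem_filter.1 hd').2
    ext j
    by_cases hj : j = l
    · rw [hj, h1, hd]
    · have h2 := congrArg (fun m : Fin k →₀ ℕ => m j) h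
      simp only [Finsupp.erase_ne hj] at h2
      exact h2
  · intro h
    exact absurd (Finset.mem_filter.2 ⟨hQ, hd⟩) h

theorem exists_top (l : Fin k) (Q : MvPolynomial (Fin k) ℝ) (h0 : Q ≠ 0) :
    ∃ d ∈ Q.support, d l = Q.degreeOf l := by
  have h1 : Q.support.Nonempty := MvPolynomial.support_nonempty.2 h0
  obtain ⟨d, hd, h2⟩ := Finset.exists_mem_eq_sup _ h1 (fun m : Fin k →₀ ℕ => m l)
  exact ⟨d, hd, by rw [MvPolynomial.degreeOf_eq_sup]; exact h2.symm⟩

theorem tp_ne (l : Fin k) (Q : MvPolynomial (Fin k) ℝ) (h0 : Q ≠ 0) : tp l Q ≠ 0 := by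
  obtain ⟨d, hd, h1⟩ := exists_top l Q h0
  intro h
  have h2 := coeff_tp l Q d h1 hd
  rw [h, MvPolynomial.coeff_zero] at h2
  exact (MvPolynomial.mem_support_iff.1 hd) h2.symm

theorem tp_supp (l : Fin k) (Q : MvPolynomial (Fin k) ℝ) (d' : Fin k →₀ ℕ)
    (h : d' ∈ (tp l Q).support) : ∃ d ∈ Q.support, d' = d.erase l := by
  classical
  unfold tp at h
  have h1 := MvPolynomial.support_sum h
  obtain ⟨d, hd, h2⟩ := Finset.mem_biUnion.1 h1
  have h3 := MvPolynomial.support_monomial_subset h2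
  exact ⟨d, (Finset.mem_filter.1 hd).1, Finset.mem_singleton.1 h3⟩

end top

/-! ### Averages -/

section avg

variable {k : ℕ}

theorem bx_update (N : Fin k → ℕ) (l : Fin k) (f : (Fin k → ℕ) → ℝ) :
    ∑ m ∈ Fintype.piFinset (fun j => Finset.range (N j)), ∑ t ∈ Finset.range (N l),
      f (Function.update m l t) =
    (N l : ℝ) * ∑ m ∈ Fintype.piFinset (fun j => Finset.range (N j)), f m := by
  classical
  rw [← Finset.sum_product']
  have h1 : (N l : ℝ) * ∑ m ∈ Fintype.piFinset (fun j => Finset.range (N j)), f m =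
      ∑ x ∈ Fintype.piFinset (fun j => Finset.range (N j)) ×ˢ Finset.range (N l), f x.1 := by
    rw [Finset.sum_product, Finset.mul_sum]
    refine Finset.sum_congr rfl fun m _ => ?_
    simp
  rw [h1]
  refine Finset.sum_nbij' (fun x => (Function.update x.1 l x.2, x.1 l))
    (fun x => (Function.update x.1 l x.2, x.1 l)) ?_ ?_ ?_ ?_ ?_
  · rintro ⟨m, t⟩ hx
    rw [Finset.mem_product, Fintype.mem_piFinset] at hx ⊢
    refine ⟨fun j => ?_, hx.1 l⟩
    by_cases hj : j = l
    · subst hj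
      simpa using hx.2
    · simpa [Function.update_of_ne hj] using hx.1 j
  · rintro ⟨m, t⟩ hx
    rw [Finset.mem_product, Fintype.mem_piFinset] at hx ⊢
    refine ⟨fun j => ?_, hx.1 l⟩
    by_cases hj : j = l
    · subst hj
      simpa using hx.2
    · simpa [Function.update_of_ne hj] using hx.1 j
  · rintro ⟨m, t⟩ _
    simp
  · rintro ⟨m, t⟩ _
    simp
  · rintro ⟨m, t⟩ _
    rfl

theorem bx_le (N : Fin k → ℕ) (hN : ∀ j, 0 < N j) (l : Fin k) (f g : (Fin k → ℕ) → ℝ) (C : ℝ)
    (h : ∀ m, ∑ t ∈ Finset.range (N l), f (Function.update m l t) ≤ N l * g m + C) :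
    bx k N f ≤ bx k N g + C / N l := by
  unfold bx
  have hl : (0 : ℝ) < N l := by exact_mod_cast hN l
  have hp : (0 : ℝ) < ∏ j, (N j : ℝ) := Finset.prod_pos fun j _ => by exact_mod_cast hN j
  have h1 := bx_update N l f
  have h2 : ∑ m ∈ Fintype.piFinset (fun j => Finset.range (N j)), ∑ t ∈ Finset.range (N l),
      f (Function.update m l t) ≤
      ∑ m ∈ Fintype.piFinset (fun j => Finset.range (N j)), (N l * g m + C) :=
    Finset.sum_le_sum fun m _ => h m
  rw [h1, Finset.sum_add_distrib, ← Finset.mul_sum, Finset.sum_const, Fintype.card_piFinset,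
    nsmul_eq_mul] at h2
  simp only [Finset.card_range] at h2
  push_cast at h2
  have h3 : ∑ m ∈ Fintype.piFinset (fun j => Finset.range (N j)), f m ≤
      ∑ m ∈ Fintype.piFinset (fun j => Finset.range (N j)), g m +
        (∏ j, (N j : ℝ)) * (C / N l) := by
    rw [← mul_le_mul_iff_right₀ hl]
    refine h2.trans (le_of_eq ?_)
    field_simp
  calc (∏ j, (N j : ℝ))⁻¹ * ∑ m ∈ Fintype.piFinset (fun j => Finset.range (N j)), f m
      ≤ (∏ j, (N j : ℝ))⁻¹ * (∑ m ∈ Fintype.piFinset (fun j => Finset.range (N j)), g m +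
        (∏ j, (N j : ℝ)) * (C / N l)) := mul_le_mul_of_nonneg_left h3 (by positivity)
    _ = _ := by
      rw [mul_add, ← mul_assoc, inv_mul_cancel₀ hp.ne', one_mul]

theorem bx_nonneg (N : Fin k → ℕ) (f : (Fin k → ℕ) → ℝ) (h : ∀ m, 0 ≤ f m) : 0 ≤ bx k N f := by
  unfold bx
  exact mul_nonneg (inv_nonneg.2 (Finset.prod_nonneg fun _ _ => Nat.cast_nonneg _))
    (Finset.sum_nonneg fun m _ => h m)

open Classical in
/-- the basic step -/
theorem step (N : Fin k → ℕ) (hN : ∀ j, 0 < N j) (l : Fin k) (p : (Fin k → ℕ) → Prop)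
    (c : (Fin k → ℕ) → ℝ) (κ : ℝ) (C : ℕ)
    (h : ∀ n, κ ≤ c n → ∀ A : Finset ℕ, (∀ t ∈ A, p (Function.update n l t)) → A.card ≤ C) :
    (bx k N fun n => if p n then (1 : ℝ) else 0) ≤
      (bx k N fun n => if c n < κ then (1 : ℝ) else 0) + C / N l := by
  refine bx_le N hN l _ _ C fun m => ?_
  rw [Finset.sum_ite, Finset.sum_const_zero, add_zero, Finset.sum_const, nsmul_eq_mul, mul_one]
  by_cases hm : c m < κ
  · rw [if_pos hm, mul_one]
    have h1 : ((Finset.range (N l)).filter fun t => p (Function.update m l t)).card ≤ N l :=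
      (Finset.card_filter_le _ _).trans (Finset.card_range _).le
    have h2 : ((((Finset.range (N l)).filter fun t => p (Function.update m l t)).card : ℕ) : ℝ) ≤
      N l := by exact_mod_cast h1
    have h3 : (0 : ℝ) ≤ C := Nat.cast_nonneg _
    linarith
  · rw [if_neg hm, mul_zero, zero_add]
    have h1 := h m (not_lt.1 hm) ((Finset.range (N l)).filter fun t => p (Function.update m l t))
      (fun t ht => (Finset.mem_filter.1 ht).2)
    exact_mod_cast h1

end avg

/-- the count on the lines -/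
theorem count {k : ℕ} (Q : MvPolynomial (Fin k) ℝ) (l : Fin k) (hl : Q.degreeOf l ≠ 0)
    (κ R : ℝ) (hκ : 0 < κ) :
    ∃ C : ℕ, ∀ n : Fin k → ℕ, κ ≤ |ev (tp l Q) n| → ∀ (a : ℝ) (A : Finset ℕ),
        (∀ t ∈ A, |ev Q (Function.update n l t) - a| < R) → A.card ≤ C := by
  refine ⟨_, fun n hn a A hA => one_var (Q.degreeOf l) (by omega) κ R hκ (uni l n Q)
    (uni_deg l n Q) (by rw [uni_coeff]; exact hn) a A fun t ht => ?_⟩
  rw [eval_uni]
  exact hA t ht

open Classical in
/-- A nonzero polynomial is rarely small. -/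
theorem rare {k : ℕ} (S : Finset (Fin k)) : ∀ Q : MvPolynomial (Fin k) ℝ, Q ≠ 0 →
    (∀ d ∈ Q.support, d.support ⊆ S) → ∀ ε : ℝ, 0 < ε → ∃ κ : ℝ, 0 < κ ∧ ∃ M₀ : ℕ,
      ∀ N : Fin k → ℕ, (∀ j, M₀ ≤ N j) →
        (bx k N fun n => if |ev Q n| < κ then (1 : ℝ) else 0) ≤ ε := by
  induction S using Finset.induction_on with
  | empty =>
    intro Q h0 hS ε hε
    have h1 : Q = MvPolynomial.C (Q.coeff 0) := by
      ext d
      rw [MvPolynomial.coeff_C]
      split_ifs with h
      · rw [h]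
      · by_contra hne
        have h2 := hS d (MvPolynomial.mem_support_iff.2 hne)
        apply h
        rw [Finset.subset_empty, Finsupp.support_eq_empty] at h2
        exact h2.symm
    have hc : Q.coeff 0 ≠ 0 := by
      intro h
      rw [h, map_zero] at h1
      exact h0 h1
    refine ⟨|Q.coeff 0|, abs_pos.2 hc, 0, fun N _ => ?_⟩
    have h2 : ∀ n, ev Q n = Q.coeff 0 := by
      intro n
      unfold ev
      rw [h1, MvPolynomial.eval_C]
      simp
    simp only [h2, lt_irrefl, if_false]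
    unfold bx
    simp [hε.le]
  | insert l S hl ih =>
    intro Q h0 hS ε hε
    by_cases hdeg : Q.degreeOf l = 0
    · refine ih Q h0 (fun d hd j hj => ?_) ε hε
      have h1 := hS d hd hj
      rcases Finset.mem_insert.1 h1 with h2 | h2
      · exfalso
        rw [MvPolynomial.degreeOf_eq_sup] at hdeg
        have h3 : d l ≤ 0 := hdeg ▸ Finset.le_sup (f := fun m : Fin k →₀ ℕ => m l) hd
        rw [h2, Finsupp.mem_support_iff] at hj
        omega
      · exact h2
    · obtain ⟨κ, hκ, M, hM⟩ := ih (tp l Q) (tp_ne l Q h0) (fun d' hd' j hj => by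
        obtain ⟨d, hd, rfl⟩ := tp_supp l Q d' hd'
        rw [Finsupp.support_erase, Finset.mem_erase] at hj
        exact Finset.mem_of_mem_insert_of_ne (hS d hd hj.2) hj.1) (ε / 2) (by linarith)
      obtain ⟨C, hC⟩ := count Q l hdeg κ κ hκ
      refine ⟨κ, hκ, max M (⌈2 * C / ε⌉₊ + 1), fun N hN => ?_⟩
      have hN1 : ∀ j, M ≤ N j := fun j => (le_max_left _ _).trans (hN j)
      have hN2 : ∀ j, ⌈2 * C / ε⌉₊ + 1 ≤ N j := fun j => (le_max_right _ _).trans (hN j)
      have h1 := step N (fun j => lt_of_lt_of_le (Nat.succ_pos _) (hN2 j)) l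
        (fun n => |ev Q n| < κ) (fun n => |ev (tp l Q) n|) κ C (fun n hn A hA =>
          hC n hn 0 A fun t ht => by rw [sub_zero]; exact hA t ht)
      have h2 := hM N hN1
      have h3 : (C : ℝ) / N l ≤ ε / 2 := by
        have h4 : 2 * (C : ℝ) / ε ≤ N l := by
          have h5 : ((⌈2 * C / ε⌉₊ + 1 : ℕ) : ℝ) ≤ N l := by exact_mod_cast hN2 l
          push_cast at h5
          have h6 := Nat.le_ceil (2 * (C : ℝ) / ε)
          linarith
        have h7 : (0 : ℝ) < N l := by
          exact_mod_cast lt_of_lt_of_le (Nat.succ_pos _) (hN2 l)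
        rw [div_le_iff₀ hε] at h4
        rw [div_le_iff₀ h7]
        linarith
      refine h1.trans ?_
      linarith

/-- (A) -/
theorem stmA : StmA := by
  intro k Q l hl
  have h0 : Q ≠ 0 := by
    rintro rfl
    exact hl (MvPolynomial.degreeOf_zero l)
  refine ⟨fun n => |ev (tp l Q) n|, fun n t => ?_, fun κ R hκ => count Q l hl κ R hκ,
    fun ε hε => ?_⟩
  · simp only [ev_tp_update]
  · obtain ⟨κ, hκ, M, hM⟩ := rare Finset.univ (tp l Q) (tp_ne l Q h0)
      (fun d _ => Finset.subset_univ _) ε hε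
    refine ⟨κ, hκ, M, fun N hN => ?_⟩
    convert hM N hN

/-- (B) -/
theorem stmB : StmB := by
  classical
  intro k Q l hl R
  obtain ⟨c, -, hc2, hc3⟩ := stmA k Q l hl
  rw [Metric.tendsto_atTop]
  intro ε hε
  obtain ⟨κ, hκ, M, hM⟩ := hc3 (ε / 2 / 2) (by positivity)
  obtain ⟨C, hC⟩ := hc2 κ R hκ
  refine ⟨fun _ => max M (⌈4 * C / ε⌉₊ + 1), fun N hN => ?_⟩
  have hN1 : ∀ j, M ≤ N j := fun j => (le_max_left _ _).trans (hN j)
  have hN2 : ∀ j, ⌈4 * C / ε⌉₊ + 1 ≤ N j := fun j => (le_max_right _ _).trans (hN j)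
  have h1 := step N (fun j => lt_of_lt_of_le (Nat.succ_pos _) (hN2 j)) l
    (fun n => |ev Q n| < R) c κ C (fun n hn A hA =>
      hC n hn 0 A fun t ht => by rw [sub_zero]; exact hA t ht)
  have h2 := hM N hN1
  have h3 : (C : ℝ) / N l ≤ ε / 4 := by
    have h4 : 4 * (C : ℝ) / ε ≤ N l := by
      have h5 : ((⌈4 * C / ε⌉₊ + 1 : ℕ) : ℝ) ≤ N l := by exact_mod_cast hN2 l
      push_cast at h5
      have h6 := Nat.le_ceil (4 * (C : ℝ) / ε)
      linarith
    have h7 : (0 : ℝ) < N l := by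
      exact_mod_cast lt_of_lt_of_le (Nat.succ_pos _) (hN2 l)
    rw [div_le_iff₀ hε] at h4
    rw [div_le_iff₀ h7]
    linarith
  have h6 : (bx k N fun n => if c n < κ then (1 : ℝ) else 0) ≤ ε / 2 / 2 := by
    convert h2
  have h8 : ∀ inst : (∀ n, Decidable (|ev Q n| < R)),
      0 ≤ bx k N (fun n => @ite _ _ (inst n) (1 : ℝ) 0) ∧
      bx k N (fun n => @ite _ _ (inst n) (1 : ℝ) 0) ≤ ε / 2 := by
    intro inst
    refine ⟨bx_nonneg N _ fun m => by split_ifs <;> norm_num, ?_⟩
    have e : (fun n => @ite ℝ (|ev Q n| < R) (inst n) (1 : ℝ) 0) =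
        fun n => @ite ℝ (|ev Q n| < R) (Classical.propDecidable _) (1 : ℝ) 0 := by
      funext n
      congr
    rw [e]
    refine h1.trans ?_
    have h9 : (bx k N fun n => @ite ℝ (c n < κ) (Classical.propDecidable _) (1 : ℝ) 0) ≤
        ε / 2 / 2 := by
      convert h2
    linarith
  rw [Real.dist_eq, sub_zero, abs_of_nonneg (h8 _).1]
  exact lt_of_le_of_lt (h8 _).2 (by linarith)

end Pool.Agent.H69N.KP
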