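import Pool.Agent.H69N.KP.PolP
import Pool.Agent.H69N.KP.Cnt

/-!
# Polynomial exponents: Kolmogorov extensions and Kolmogorov actions
-/

set_option autoImplicit false
set_option linter.unusedSectionVars false

open MeasureTheory Filter Topology
open scoped ENNReal

noncomputable section

namespace Pool.Agent.H69N.KP

open Pool.Agent.TH784.KE
open Pool.Agent.W761.Box (bxc BM Good1)

variable {X : Type*} {mA mY mX : MeasurableSpace X} {μ : Measure X} [IsProbabilityMeasure μ]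
variable {G : Type*} [Group G]
variable {Φ : G →* Equiv.Perm X} {ℓ : G → ℝ}
variable {J : Type*} [DecidableEq J] [Fintype J] {k d : ℕ}

theorem good1_of {Y : Type*} [MeasurableSpace Y] {ν : Measure Y} {S : (Fin k → ℕ) → Y → Y}
    (h : ∀ g : Y → ℂ, Measurable g → (∃ C : ℝ, ∀ x, ‖g x‖ ≤ C) →
      ∀ᵐ x ∂ν, ∃ L : ℂ, Tendsto (fun M => bxc k M fun m => g (S m x)) atTop (𝓝 L)) :
    Good1 ν S := by
  intro g hg ⟨C, hC⟩
  have h1 := h (fun x => (g x : ℂ)) (Complex.measurable_ofReal.comp hg)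
    ⟨C, fun x => by rw [Complex.norm_real]; exact hC x⟩
  filter_upwards [h1] with x hx
  obtain ⟨L, hL⟩ := hx
  refine ⟨L.re, ?_⟩
  have h2 := (Complex.continuous_re.tendsto _).comp hL
  refine h2.congr fun N => ?_
  rw [Function.comp_apply]
  have h3 : (bxc k N fun m => (g (S m x) : ℂ)) =
      ((Pool.Agent.W761.Box.bx k N fun m => g (S m x) : ℝ) : ℂ) := by
    rw [← bxc_cast]
  rw [h3, Complex.ofReal_re]

/-- the product of the functions has the same averages as the product of the projections -/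
theorem ext_char (hK : KExt μ mA mY Φ ℓ) {s₀ : G} (hs₀ : 0 < ℓ s₀)
    {q : (Fin k → ℕ) → J → G} {dep : J → Fin k → Prop} (hP : Fam ℓ q dep)
    (hdep : ∀ v l, dep v l) {f : J → X → ℂ} (hf : ∀ v, MemLp (f v) ∞ μ)
    (hreg : ∀ v, UReg (mX := mX) μ mA mY Φ (f v) ∨ Good1 μ (fun n => (Φ (q n v) : X → X))) :
    ∀ᵐ x ∂μ, Tendsto (fun N => bxc k N fun n => (∏ v, f v (Φ (q n v) x) -
      ∏ v, (μ[f v | mY]) (Φ (q n v) x))) atTop (𝓝 0) := by
  classical
  choose g hg hfg using fun v => Pool.Agent.H69N.KB.bm_of_memLp (hf v)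
  choose e he heY hee hfe using fun v =>
    exists_cond (μ := μ) (hK.base.le.trans hK.filt.le) (hg v)
  have happ : ∀ v, App (mX := mX) μ mA Φ (fun n => (Φ (q n v) : X → X))
      (fun x => g v x - e v x) := by
    intro v
    rcases hreg v with h | h
    · refine App.of_ureg hK (fun n => hK.fl (q n v)) (hg v) (hee v) fun ε hε => ?_
      obtain ⟨F, hF, hFf⟩ := h ε hε
      refine ⟨F, hF, ?_⟩
      filter_upwards [hFf, hfg v] with x hx1 hx2
      rwa [← hx2]
    · obtain ⟨hm, C, hC⟩ := hg v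
      obtain ⟨hm', C', hC'⟩ := he v
      exact App.of_good hK hs₀ (fun n => hK.fl (q n v)) h
        ⟨hm.sub hm', C + C', fun x => (norm_sub_le _ _).trans (add_le_add (hC x) (hC' x))⟩ (hfe v)
  have hmain := main_char hK hs₀ hP (f := g) (e := e) hg he heY (Or.inl hdep) happ
  have h1 : ∀ᵐ x ∂μ, ∀ (n : Fin k → ℕ) (j : J), f j (Φ (q n j) x) = g j (Φ (q n j) x) := by
    rw [ae_all_iff]
    intro n
    rw [ae_all_iff]
    intro j
    exact (hK.fl _).quasiMeasurePreserving.ae (hfg j)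
  have h2 : ∀ᵐ x ∂μ, ∀ (n : Fin k → ℕ) (j : J),
      (μ[f j | mY]) (Φ (q n j) x) = e j (Φ (q n j) x) := by
    rw [ae_all_iff]
    intro n
    rw [ae_all_iff]
    intro j
    have h3 : μ[f j | mY] =ᵐ[μ] e j := (condExp_congr_ae (hfg j)).trans (hee j).symm
    exact (hK.fl _).quasiMeasurePreserving.ae h3
  filter_upwards [hmain, h1, h2] with x hx hx1 hx2
  refine hx.congr fun N => ?_
  congr 1
  funext n
  simp only [hx1, hx2]

/-- **Kolmogorov extensions, polynomial exponents.** -/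
theorem ext_poly (hK : KExt μ mA mY Φ ℓ) (T : Fin d → G) (P : Fin d → J → MvPolynomial (Fin k) ℤ)
    (hk : 0 < k)
    (h1 : ∀ j l, (lev (fun i => ℓ (T i)) fun i => P i j).degreeOf l ≠ 0)
    (h3 : ∀ i j, i ≠ j → (lev (fun l => ℓ (T l)) (fun l => P l i) -
      lev (fun l => ℓ (T l)) (fun l => P l j)).totalDegree ≠ 0)
    {f : J → X → ℂ} (hf : ∀ j, MemLp (f j) ∞ μ)
    (hreg : ∀ j, UReg (mX := mX) μ mA mY Φ (f j) ∨
      Good1 μ (fun m => (Φ (wrd T (fun i => P i j) m) : X → X))) :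
    ∀ᵐ x ∂μ, Tendsto (fun N => bxc k N fun n => (∏ j, f j (Φ (wrd T (fun i => P i j) n) x) -
      ∏ j, (μ[f j | mY]) (Φ (wrd T (fun i => P i j) n) x))) atTop (𝓝 0) := by
  classical
  have h2 : ∀ j, (lev (fun i => ℓ (T i)) fun i => P i j).totalDegree ≠ 0 := by
    intro j h0
    have h4 := MvPolynomial.degreeOf_le_totalDegree
      (lev (fun i => ℓ (T i)) fun i => P i j) ⟨0, hk⟩
    exact h1 j ⟨0, hk⟩ (by omega)
  rcases isEmpty_or_nonempty J with hJ | ⟨⟨j₀⟩⟩
  · refine Eventually.of_forall fun x => ?_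
    have e : (fun N => bxc k N fun n => (∏ j, f j (Φ (wrd T (fun i => P i j) n) x) -
        ∏ j, (μ[f j | mY]) (Φ (wrd T (fun i => P i j) n) x))) = fun _ => (0 : ℂ) := by
      funext N
      unfold Pool.Agent.W761.Box.bxc
      simp
    rw [e]
    exact tendsto_const_nhds
  · obtain ⟨s₀, hs₀⟩ := exists_pos hK.filt T (fun i => P i j₀) (h2 j₀)
    exact ext_char hK hs₀ (fam_poly hK.filt stmA stmB T P
      (fun j l h => absurd h (h1 j l)) h2 h3) h1 hf hreg

/-- **Kolmogorov actions, polynomial exponents.** -/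
theorem act_poly (hK : KExt μ mA ⊥ Φ ℓ) (T : Fin d → G) (P : Fin d → J → MvPolynomial (Fin k) ℤ)
    (h1 : ∀ j l, (lev (fun i => ℓ (T i)) fun i => P i j).degreeOf l = 0 →
      ∀ i, (P i j).degreeOf l = 0)
    (h2 : ∀ j, (lev (fun i => ℓ (T i)) fun i => P i j).totalDegree ≠ 0)
    (h3 : ∀ i j, i ≠ j → (lev (fun l => ℓ (T l)) (fun l => P l i) -
      lev (fun l => ℓ (T l)) (fun l => P l j)).totalDegree ≠ 0)
    {f : J → X → ℂ} (hf : ∀ j, MemLp (f j) ∞ μ)
    (hreg : ∀ j, Reg (mX := mX) μ mA Φ (f j) ∨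
      Good1 μ (fun m => (Φ (wrd T (fun i => P i j) m) : X → X))) :
    ∀ᵐ x ∂μ, Tendsto (fun N => bxc k N fun n => ∏ j, f j (Φ (wrd T (fun i => P i j) n) x)) atTop
      (𝓝 (∏ j, ∫ x, f j x ∂μ)) := by
  classical
  rcases isEmpty_or_nonempty J with hJ | ⟨⟨j₀⟩⟩
  · refine Eventually.of_forall fun x => ?_
    simp only [Finset.univ_eq_empty, Finset.prod_empty]
    refine (tendsto_congr' ?_).1 tendsto_const_nhds
    filter_upwards [eventually_ge_atTop (fun _ : Fin k => 1)] with N hN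
    unfold Pool.Agent.W761.Box.bxc
    rw [Finset.sum_const, Fintype.card_piFinset, nsmul_eq_mul]
    simp only [Finset.card_range]
    push_cast
    rw [← mul_assoc, inv_mul_cancel₀, one_mul]
    refine Finset.prod_ne_zero_iff.2 fun j _ => ?_
    have hNj : 1 ≤ N j := hN j
    exact_mod_cast (by omega : N j ≠ 0)
  · obtain ⟨s₀, hs₀⟩ := exists_pos hK.filt T (fun i => P i j₀) (h2 j₀)
    exact main_act hK hs₀ (fam_poly hK.filt stmA stmB T P h1 h2 h3) hf hreg

end Pool.Agent.H69N.KP
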