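import Pool.Agent.TH784.KE.Multi

/-!
# Successively orthogonal sums along a line with arbitrary levels
-/

set_option autoImplicit false
set_option linter.unusedSectionVars false

open MeasureTheory Filter Topology

noncomputable section

namespace Pool.Agent.H69N.KP

open Pool.Agent.TH784.KE

section azuma

variable {X : Type*} {mX : MeasurableSpace X} {μ : Measure X} [IsProbabilityMeasure μ]

/-- successive orthogonality along a real rank function -/
def OrthR {ι : Type*} (μ : Measure X) (rk : ι → ℝ) (M : Finset ι) (D : ι → X → ℝ) : Prop :=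
  ∀ i ∈ M, ∀ M' ⊆ M, (∀ j ∈ M', rk j < rk i) → ∀ c : ℝ,
    ∫ x, D i x * Real.exp (c * ∑ j ∈ M', D j x) ∂μ = 0

theorem azuma_intR {ι : Type*} [DecidableEq ι] {rk : ι → ℝ}
    (M : Finset ι) (hrk : Set.InjOn rk M) {D : ι → X → ℝ} (hm : ∀ i ∈ M, Measurable (D i))
    (hb : ∀ i ∈ M, ∀ x, |D i x| ≤ 1) (ho : OrthR μ rk M D) (c : ℝ) :
    ∫ x, Real.exp (c * ∑ i ∈ M, D i x) ∂μ ≤ Real.exp (M.card * (c ^ 2 / 2)) := by
  induction M using Finset.induction_on_max_value rk with
  | empty => simp
  | insert a s ha hmax ih =>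
    have hs : s ⊆ insert a s := Finset.subset_insert a s
    have ih' := ih (hrk.mono (by exact_mod_cast hs)) (fun i hi => hm i (hs hi))
      (fun i hi => hb i (hs hi))
      (fun i hi M' hM' h => ho i (hs hi) M' (hM'.trans hs) h)
    have hlt : ∀ j ∈ s, rk j < rk a := by
      intro j hj
      refine lt_of_le_of_ne (hmax j hj) fun h => ?_
      have := hrk (by exact_mod_cast hs hj) (by exact_mod_cast Finset.mem_insert_self a s) h
      rw [this] at hj
      exact ha hj
    have h0 := ho a (Finset.mem_insert_self a s) s hs hlt c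
    have hma := hm a (Finset.mem_insert_self a s)
    have hba := hb a (Finset.mem_insert_self a s)
    have hSm : Measurable fun x => ∑ i ∈ s, D i x :=
      Finset.measurable_fun_sum _ fun i hi => hm i (hs hi)
    have hSb : ∀ x, |∑ i ∈ s, D i x| ≤ s.card := by
      intro x
      refine (Finset.abs_sum_le_sum_abs _ _).trans ?_
      refine (Finset.sum_le_sum fun i hi => hb i (hs hi) x).trans ?_
      simp
    have hEm : Measurable fun x => Real.exp (c * ∑ i ∈ s, D i x) :=
      (hSm.const_mul c).exp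
    have hEb : ∀ x, |Real.exp (c * ∑ i ∈ s, D i x)| ≤ Real.exp (|c| * s.card) := by
      intro x
      rw [abs_of_pos (Real.exp_pos _)]
      apply Real.exp_le_exp.2
      refine (le_abs_self _).trans ?_
      rw [abs_mul]
      exact mul_le_mul_of_nonneg_left (hSb x) (abs_nonneg _)
    have hEi : Integrable (fun x => Real.exp (c * ∑ i ∈ s, D i x)) μ :=
      Integrable.of_bound hEm.aestronglyMeasurable _ (Eventually.of_forall hEb)
    have hDEi : Integrable (fun x => D a x * Real.exp (c * ∑ i ∈ s, D i x)) μ := by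
      refine Integrable.of_bound (hma.mul hEm).aestronglyMeasurable (1 * Real.exp (|c| * s.card))
        (Eventually.of_forall fun x => ?_)
      rw [Real.norm_eq_abs, abs_mul]
      exact mul_le_mul (hba x) (hEb x) (abs_nonneg _) zero_le_one
    have hpt : ∀ x, Real.exp (c * ∑ i ∈ insert a s, D i x) ≤
        Real.cosh c * Real.exp (c * ∑ i ∈ s, D i x) +
          Real.sinh c * (D a x * Real.exp (c * ∑ i ∈ s, D i x)) := by
      intro x
      rw [Finset.sum_insert ha, mul_add, Real.exp_add]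
      have h1 := exp_le_cosh (c := c) (hba x)
      have h2 := mul_le_mul_of_nonneg_right h1 (Real.exp_pos (c * ∑ i ∈ s, D i x)).le
      refine h2.trans (le_of_eq ?_)
      ring
    have hle : ∫ x, Real.exp (c * ∑ i ∈ insert a s, D i x) ∂μ ≤
        ∫ x, (Real.cosh c * Real.exp (c * ∑ i ∈ s, D i x) +
          Real.sinh c * (D a x * Real.exp (c * ∑ i ∈ s, D i x))) ∂μ := by
      refine integral_mono_of_nonneg (Eventually.of_forall fun x => (Real.exp_pos _).le)
        ((hEi.const_mul _).add (hDEi.const_mul _)) (Eventually.of_forall hpt)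
    rw [integral_add (hEi.const_mul _) (hDEi.const_mul _), integral_const_mul,
      integral_const_mul, h0, mul_zero, add_zero] at hle
    refine hle.trans ?_
    rw [Finset.card_insert_of_notMem ha]
    push_cast
    have e1 : Real.exp (((s.card : ℝ) + 1) * (c ^ 2 / 2)) =
        Real.exp (c ^ 2 / 2) * Real.exp (s.card * (c ^ 2 / 2)) := by
      rw [← Real.exp_add]
      congr 1
      ring
    rw [e1]
    exact mul_le_mul (Real.cosh_le_exp_half_sq c) ih'
      (integral_nonneg fun x => (Real.exp_pos _).le) (Real.exp_pos _).le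

theorem azuma_oneR {ι : Type*} [DecidableEq ι] {rk : ι → ℝ}
    (M : Finset ι) (hrk : Set.InjOn rk M) {D : ι → X → ℝ} (hm : ∀ i ∈ M, Measurable (D i))
    (hb : ∀ i ∈ M, ∀ x, |D i x| ≤ 1) (ho : OrthR μ rk M D) {t : ℝ} (ht : 0 ≤ t) {n : ℕ}
    (hn : 0 < n) (hMn : M.card ≤ n) :
    μ.real {x | t ≤ ∑ i ∈ M, D i x} ≤ Real.exp (-(t ^ 2 / (2 * n))) := by
  have hn' : (0 : ℝ) < n := by exact_mod_cast hn
  set c : ℝ := t / n with hc
  have hc0 : 0 ≤ c := by positivity
  have h1 := azuma_intR M hrk hm hb ho c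
  have h2 : Real.exp (M.card * (c ^ 2 / 2)) ≤ Real.exp (n * (c ^ 2 / 2)) := by
    apply Real.exp_le_exp.2
    have : (M.card : ℝ) ≤ n := by exact_mod_cast hMn
    exact mul_le_mul_of_nonneg_right this (by positivity)
  have hSm : Measurable fun x => ∑ i ∈ M, D i x :=
    Finset.measurable_fun_sum _ fun i hi => hm i hi
  have hSb : ∀ x, |∑ i ∈ M, D i x| ≤ M.card := by
    intro x
    refine (Finset.abs_sum_le_sum_abs _ _).trans ?_
    refine (Finset.sum_le_sum fun i hi => hb i hi x).trans ?_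
    simp
  have hEi : Integrable (fun x => Real.exp (c * ∑ i ∈ M, D i x)) μ := by
    refine Integrable.of_bound (hSm.const_mul c).exp.aestronglyMeasurable
      (Real.exp (|c| * M.card)) (Eventually.of_forall fun x => ?_)
    rw [Real.norm_eq_abs, abs_of_pos (Real.exp_pos _)]
    apply Real.exp_le_exp.2
    refine (le_abs_self _).trans ?_
    rw [abs_mul]
    exact mul_le_mul_of_nonneg_left (hSb x) (abs_nonneg _)
  have hmark := mul_meas_ge_le_integral_of_nonneg (μ := μ)
    (f := fun x => Real.exp (c * ∑ i ∈ M, D i x))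
    (Eventually.of_forall fun x => (Real.exp_pos _).le) hEi (Real.exp (c * t))
  have hsub : {x | t ≤ ∑ i ∈ M, D i x} ⊆
      {x | Real.exp (c * t) ≤ Real.exp (c * ∑ i ∈ M, D i x)} := by
    intro x hx
    exact Real.exp_le_exp.2 (mul_le_mul_of_nonneg_left hx hc0)
  have h3 : Real.exp (c * t) * μ.real {x | t ≤ ∑ i ∈ M, D i x} ≤
      Real.exp (n * (c ^ 2 / 2)) := by
    refine le_trans ?_ ((hmark.trans h1).trans h2)
    exact mul_le_mul_of_nonneg_left (measureReal_mono hsub) (Real.exp_pos _).le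
  have h4 : Real.exp (-(t ^ 2 / (2 * n))) =
      (Real.exp (c * t))⁻¹ * Real.exp (n * (c ^ 2 / 2)) := by
    rw [← Real.exp_neg, ← Real.exp_add]
    congr 1
    rw [hc]
    field_simp
    ring
  rw [h4, ← mul_le_mul_iff_of_pos_left (Real.exp_pos (c * t)), ← mul_assoc,
    mul_inv_cancel₀ (Real.exp_pos _).ne', one_mul]
  exact h3

omit [IsProbabilityMeasure μ] in
theorem OrthR.neg {ι : Type*} {rk : ι → ℝ} {M : Finset ι} {D : ι → X → ℝ}
    (ho : OrthR μ rk M D) : OrthR μ rk M (fun i x => -D i x) := by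
  intro i hi M' hM' h c
  have h1 := ho i hi M' hM' h (-c)
  have e : (fun x => -D i x * Real.exp (c * ∑ j ∈ M', -D j x)) =
      fun x => -(D i x * Real.exp (-c * ∑ j ∈ M', D j x)) := by
    funext x
    rw [Finset.sum_neg_distrib, neg_mul, mul_neg, neg_mul]
  rw [e, integral_neg, h1, neg_zero]

theorem azumaR {ι : Type*} [DecidableEq ι] {rk : ι → ℝ}
    (M : Finset ι) (hrk : Set.InjOn rk M) {D : ι → X → ℝ} (hm : ∀ i ∈ M, Measurable (D i))
    (hb : ∀ i ∈ M, ∀ x, |D i x| ≤ 1) (ho : OrthR μ rk M D) {t : ℝ} (ht : 0 ≤ t) {n : ℕ}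
    (hn : 0 < n) (hMn : M.card ≤ n) :
    μ.real {x | t ≤ |∑ i ∈ M, D i x|} ≤ 2 * Real.exp (-(t ^ 2 / (2 * n))) := by
  have h1 := azuma_oneR M hrk hm hb ho ht hn hMn
  have h2 := azuma_oneR M hrk (D := fun i x => -D i x) (fun i hi => (hm i hi).neg)
    (fun i hi x => by rw [abs_neg]; exact hb i hi x) ho.neg ht hn hMn
  have hsub : {x | t ≤ |∑ i ∈ M, D i x|} ⊆
      {x | t ≤ ∑ i ∈ M, D i x} ∪ {x | t ≤ ∑ i ∈ M, -D i x} := by
    intro x hx
    rcases le_abs.1 (show t ≤ |∑ i ∈ M, D i x| from hx) with h | h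
    · exact Or.inl h
    · right
      show t ≤ ∑ i ∈ M, -D i x
      rw [Finset.sum_neg_distrib]
      exact h
  refine (measureReal_mono hsub).trans ((measureReal_union_le _ _).trans ?_)
  linarith

end azuma

/-- greedy colouring -/
theorem greedy (C : ℕ) (M : Finset ℕ) (r : ℕ → ℕ → Prop) (hsymm : ∀ a b, r a b → r b a)
    (hdeg : ∀ a ∈ M, ∀ A ⊆ M, (∀ b ∈ A, b ≠ a ∧ r a b) → A.card ≤ C) :
    ∃ f : ℕ → ℕ, (∀ a ∈ M, f a < C + 1) ∧ ∀ a ∈ M, ∀ b ∈ M, a ≠ b → r a b → f a ≠ f b := by
  classical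
  induction M using Finset.induction_on with
  | empty => exact ⟨fun _ => 0, by simp, by simp⟩
  | insert a s ha ih =>
    obtain ⟨f, hf1, hf2⟩ := ih (fun b hb A hA h => hdeg b (Finset.mem_insert_of_mem hb) A
      (hA.trans (Finset.subset_insert a s)) h)
    set B := (s.filter fun b => r a b).image f with hB
    have hBc : B.card ≤ C := by
      refine Finset.card_image_le.trans ?_
      refine hdeg a (Finset.mem_insert_self a s) _
        ((Finset.filter_subset _ _).trans (Finset.subset_insert a s)) fun b hb => ?_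
      obtain ⟨h1, h2⟩ := Finset.mem_filter.1 hb
      exact ⟨fun e => ha (e ▸ h1), h2⟩
    obtain ⟨c, hc1, hc2⟩ : ∃ c ∈ Finset.range (C + 1), c ∉ B := by
      by_contra hcon
      push Not at hcon
      have : (Finset.range (C + 1)).card ≤ B.card := Finset.card_le_card hcon
      rw [Finset.card_range] at this
      omega
    have hnB : ∀ b ∈ s, r a b → f b ≠ c := by
      intro b hb hr e
      exact hc2 (e ▸ Finset.mem_image_of_mem f (Finset.mem_filter.2 ⟨hb, hr⟩))
    refine ⟨Function.update f a c, fun b hb => ?_, fun b hb b' hb' hne hr => ?_⟩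
    · rcases Finset.mem_insert.1 hb with rfl | h
      · rw [Function.update_self]
        exact Finset.mem_range.1 hc1
      · have hba : b ≠ a := fun e => ha (e ▸ h)
        rw [Function.update_of_ne hba]
        exact hf1 b h
    · rcases Finset.mem_insert.1 hb with rfl | h
      · have h' : b' ∈ s := (Finset.mem_insert.1 hb').resolve_left (Ne.symm hne)
        rw [Function.update_self, Function.update_of_ne (Ne.symm hne)]
        exact (hnB b' h' hr).symm
      · rcases Finset.mem_insert.1 hb' with rfl | h'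
        · rw [Function.update_self, Function.update_of_ne hne]
          exact hnB b h (hsymm _ _ hr)
        · have hba : b ≠ a := fun e => ha (e ▸ h)
          have hba' : b' ≠ a := fun e => ha (e ▸ h')
          rw [Function.update_of_ne hba, Function.update_of_ne hba']
          exact hf2 b h b' h' hne hr

variable {X : Type*} {mA mY mX : MeasurableSpace X} {μ : Measure X} [IsProbabilityMeasure μ]
variable {G : Type*} [Group G]
variable {Φ : G →* Equiv.Perm X} {ℓ : G → ℝ}
variable {J : Type*} [DecidableEq J]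

theorem orth_lineR (hFl : Flow μ Φ) (hA : Filt mX mA Φ ℓ) (hY : Base mY mA Φ) {V : Finset J}
    {v : J} (hv : v ∈ V) {p : ℕ → J → G}
    {F H : J → X → ℝ} {W : ℕ → X → ℝ} {r s : G} {R : ℝ}
    (hsr : ℓ s ≤ ℓ r) (hR : ℓ r - ℓ s ≤ R) (hR0 : 0 ≤ R)
    (hF : ∀ w ∈ V, Measurable[cm mA Φ r] (F w) ∧ ∀ x, |F w x| ≤ 1)
    (hH : CE μ (cm mA Φ s) (F v) (H v)) (hW : ∀ m, Measurable[mY] (W m) ∧ ∀ x, |W m x| ≤ 1)
    (M : Finset ℕ)
    (hM : ∀ i ∈ M, ∀ j ∈ M, ℓ (p j v) < ℓ (p i v) → R ≤ ℓ (p i v) - ℓ (p j v)) :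
    OrthR μ (fun m => ℓ (p m v)) M fun m x => DD V Φ ℓ R F H (W m) (p m) v x / 2 := by
  classical
  intro i hi M' hM' hlt c
  by_cases htop : top V ℓ R (p i) v
  swap
  · have e : ∀ x, DD V Φ ℓ R F H (W i) (p i) v x = 0 := by
      intro x
      unfold DD
      rw [if_neg htop]
    simp only [e, zero_div, zero_mul, integral_zero]
  set t : G := s * p i v with ht
  have hpast : ∀ j ∈ M', Measurable[cm mA Φ t]
      (DD V Φ ℓ R F H (W j) (p j) v) := by
    intro j hj
    refine DD_past hA hY hv hsr hR0 (fun w hw => (hF w hw).1) hH.1 (hW j).1 ?_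
    have h1 := hM i hi j (hM' hj) (hlt j hj)
    rw [ht, hA.hom]
    linarith
  have hexp : Measurable[cm mA Φ t] fun x => Real.exp (c * ∑ j ∈ M',
      DD V Φ ℓ R F H (W j) (p j) v x / 2) := by
    have h1 : Measurable[cm mA Φ t] fun x => ∑ j ∈ M',
        DD V Φ ℓ R F H (W j) (p j) v x / 2 :=
      Finset.measurable_fun_sum _ fun j hj => (hpast j hj).div_const 2
    exact (h1.const_mul c).exp
  have hprod : Measurable[cm mA Φ t] fun x => ∏ w ∈ V.erase v, F w (Φ (p i w) x) := by
    refine Finset.measurable_fun_prod _ fun w hw => ?_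
    refine (meas_shift _ (hF w (Finset.mem_of_mem_erase hw)).1).mono
      (cm_mono hA ?_) le_rfl
    have h9 : ℓ (p i w) + R ≤ ℓ (p i v) :=
      htop w (Finset.mem_of_mem_erase hw) (Finset.ne_of_mem_erase hw)
    rw [ht, hA.hom, hA.hom]
    linarith
  have hWm : Measurable[cm mA Φ t] (W i) := (hW i).1.mono (base_le hY t) le_rfl
  have hfm : Measurable (F v) := (hF v hv).1.mono (cm_le hFl hA r) le_rfl
  have hb : ∀ x, |((∏ w ∈ V.erase v, F w (Φ (p i w) x)) * W i x) *
      Real.exp (c * ∑ j ∈ M', DD V Φ ℓ R F H (W j) (p j) v x / 2)| ≤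
      1 * Real.exp (|c| * M'.card) := by
    intro x
    rw [abs_mul, abs_mul, abs_of_pos (Real.exp_pos _)]
    have h2 := prod_abs_le (Φ := Φ) (V := V.erase v) (F := F)
      (fun w hw => (hF w (Finset.mem_of_mem_erase hw)).2) (p i) x
    have h3 := (hW i).2 x
    have h4 : |∏ w ∈ V.erase v, F w (Φ (p i w) x)| * |W i x| ≤ 1 := by
      calc _ ≤ (1 : ℝ) * 1 := mul_le_mul h2 h3 (abs_nonneg _) zero_le_one
        _ = 1 := one_mul 1
    refine mul_le_mul h4 ?_ (Real.exp_pos _).le zero_le_one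
    apply Real.exp_le_exp.2
    refine (le_abs_self _).trans ?_
    rw [abs_mul]
    refine mul_le_mul_of_nonneg_left ?_ (abs_nonneg _)
    refine (Finset.abs_sum_le_sum_abs _ _).trans ?_
    refine (Finset.sum_le_sum (g := fun _ => (1 : ℝ)) fun j hj => ?_).trans (by simp)
    rw [abs_div, abs_two]
    have := DD_abs (Φ := Φ) (ℓ := ℓ) (R := R) hv (fun w hw => (hF w hw).2) hH.2.1 (hW j).2
      (p j) x
    linarith
  have key := orth_shift hFl hA hfm hH (p i v) ((hprod.mul hWm).mul hexp) hb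
  have e : ∀ x, DD V Φ ℓ R F H (W i) (p i) v x / 2 *
      Real.exp (c * ∑ j ∈ M', DD V Φ ℓ R F H (W j) (p j) v x / 2) =
      2⁻¹ * ((F v (Φ (p i v) x) - H v (Φ (p i v) x)) *
        ((((∏ w ∈ V.erase v, F w (Φ (p i w) x)) * W i x)) *
        Real.exp (c * ∑ j ∈ M', DD V Φ ℓ R F H (W j) (p j) v x / 2))) := by
    intro x
    conv_lhs =>
      enter [1, 1]
      unfold DD
    rw [if_pos htop]
    ring
  simp only [e]
  rw [integral_const_mul]
  refine mul_eq_zero_of_right _ ?_
  exact key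

/-- deviation of the sum over a set of positions whose levels have few coincidences -/
theorem line_boundR (hFl : Flow μ Φ) (hA : Filt mX mA Φ ℓ) (hY : Base mY mA Φ) {V : Finset J}
    {v : J} (hv : v ∈ V) {p : ℕ → J → G}
    {F H : J → X → ℝ} {W : ℕ → X → ℝ} {r s : G} {R : ℝ}
    (hsr : ℓ s ≤ ℓ r) (hR : ℓ r - ℓ s ≤ R) (hR0 : 0 < R)
    (hF : ∀ w ∈ V, Measurable[cm mA Φ r] (F w) ∧ ∀ x, |F w x| ≤ 1)
    (hH : CE μ (cm mA Φ s) (F v) (H v)) (hW : ∀ m, Measurable[mY] (W m) ∧ ∀ x, |W m x| ≤ 1)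
    {C : ℕ} (hC : ∀ (a : ℝ) (A : Finset ℕ), (∀ t ∈ A, |ℓ (p t v) - a| < R) → A.card ≤ C)
    {N : ℕ} (hN : 0 < N) {t : ℝ} (ht : 0 ≤ t) :
    μ.real {x | t ≤ |∑ m ∈ Finset.range N,
      DD V Φ ℓ R F H (W m) (p m) v x|} ≤
      (C + 1 : ℕ) * (2 * Real.exp (-((t / (2 * (C + 1 : ℕ))) ^ 2 / (2 * N)))) := by
  classical
  obtain ⟨f, hf1, hf2⟩ := greedy C (Finset.range N) (fun a b => |ℓ (p b v) - ℓ (p a v)| < R)
    (fun a b h => by rw [abs_sub_comm]; exact h)
    (fun a _ A _ h => hC (ℓ (p a v)) A fun b hb => (h b hb).2)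
  set L : ℕ := C + 1 with hLdef
  have hL' : (0 : ℝ) < L := by positivity
  have hmeas : ∀ m, Measurable (DD V Φ ℓ R F H (W m) (p m) v) := fun m =>
    (DD_past hA hY hv hsr hR0.le (fun w hw => (hF w hw).1) hH.1 (hW m).1
      (t := r * p m v) (hA.hom _ _).ge).mono (cm_le hFl hA _) le_rfl
  have key : ∀ ρ ∈ Finset.range L, μ.real {x | t / (2 * L) ≤
      |∑ m ∈ (Finset.range N).filter (fun m => f m = ρ),
        DD V Φ ℓ R F H (W m) (p m) v x / 2|} ≤
      2 * Real.exp (-((t / (2 * L)) ^ 2 / (2 * N))) := by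
    intro ρ _
    have hcard : ((Finset.range N).filter (fun m => f m = ρ)).card ≤ N :=
      (Finset.card_filter_le _ _).trans (Finset.card_range N).le
    have hsep : ∀ i ∈ (Finset.range N).filter (fun m => f m = ρ),
        ∀ j ∈ (Finset.range N).filter (fun m => f m = ρ), i ≠ j →
        R ≤ |ℓ (p j v) - ℓ (p i v)| := by
      intro i hi j hj hne
      by_contra hcon
      rw [not_le] at hcon
      exact hf2 i (Finset.mem_filter.1 hi).1 j (Finset.mem_filter.1 hj).1 hne hcon
        ((Finset.mem_filter.1 hi).2.trans (Finset.mem_filter.1 hj).2.symm)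
    have hb : ∀ m ∈ (Finset.range N).filter (fun m => f m = ρ), ∀ x,
        |DD V Φ ℓ R F H (W m) (p m) v x / 2| ≤ 1 := by
      intro m _ x
      rw [abs_div, abs_two]
      have := DD_abs (Φ := Φ) (ℓ := ℓ) (R := R) hv (fun w hw => (hF w hw).2) hH.2.1 (hW m).2
        (p m) x
      linarith
    have hmm : ∀ m ∈ (Finset.range N).filter (fun m => f m = ρ), Measurable fun x =>
        DD V Φ ℓ R F H (W m) (p m) v x / 2 :=
      fun m _ => (hmeas m).div_const 2
    refine azumaR (rk := fun m => ℓ (p m v)) _ ?_ hmm hb ?_ (div_nonneg ht (by positivity)) hN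
      hcard
    · intro i hi j hj hij
      by_contra hne
      have h1 := hsep i (by exact_mod_cast hi) j (by exact_mod_cast hj) hne
      have h2 : ℓ (p i v) = ℓ (p j v) := hij
      rw [h2, sub_self, abs_zero] at h1
      linarith
    · refine orth_lineR hFl hA hY hv hsr hR hR0.le hF hH hW _ ?_
      intro i hi j hj hlt
      have hne : i ≠ j := by
        rintro rfl
        exact lt_irrefl _ hlt
      have h1 := hsep i hi j hj hne
      rwa [abs_sub_comm, abs_of_pos (sub_pos.2 hlt)] at h1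
  have hsub : {x | t ≤ |∑ m ∈ Finset.range N,
      DD V Φ ℓ R F H (W m) (p m) v x|} ⊆
      ⋃ ρ ∈ Finset.range L, {x | t / (2 * L) ≤
      |∑ m ∈ (Finset.range N).filter (fun m => f m = ρ),
        DD V Φ ℓ R F H (W m) (p m) v x / 2|} := by
    intro x hx
    by_contra hcon
    simp only [Set.mem_iUnion, Set.mem_ofPred_eq, not_exists, not_le] at hcon
    have h1 : ∑ m ∈ Finset.range N, DD V Φ ℓ R F H (W m) (p m) v x =
        2 * ∑ ρ ∈ Finset.range L, ∑ m ∈ (Finset.range N).filter (fun m => f m = ρ),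
          DD V Φ ℓ R F H (W m) (p m) v x / 2 := by
      rw [Finset.sum_fiberwise_of_maps_to (s := Finset.range N) (t := Finset.range L)
        (g := f) (fun m hm => Finset.mem_range.2 (hf1 m hm)), Finset.mul_sum]
      refine Finset.sum_congr rfl fun m _ => ?_
      ring
    have h2 : |∑ m ∈ Finset.range N, DD V Φ ℓ R F H (W m) (p m) v x| < t := by
      rw [h1, abs_mul, abs_two]
      have h3 : |∑ ρ ∈ Finset.range L, ∑ m ∈ (Finset.range N).filter (fun m => f m = ρ),
          DD V Φ ℓ R F H (W m) (p m) v x / 2| < L * (t / (2 * L)) := by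
        refine (Finset.abs_sum_le_sum_abs _ _).trans_lt ?_
        refine (Finset.sum_lt_sum_of_nonempty ⟨0, Finset.mem_range.2 (Nat.succ_pos C)⟩
          fun ρ hρ => hcon ρ hρ).trans_le ?_
        rw [Finset.sum_const, Finset.card_range, nsmul_eq_mul]
      calc 2 * _ < 2 * (L * (t / (2 * L))) := by linarith
        _ = t := by field_simp
    exact absurd hx (not_le.2 h2)
  refine (measureReal_mono hsub (measure_ne_top _ _)).trans
    ((measureReal_biUnion_finset_le _ _).trans ?_)
  refine (Finset.sum_le_sum key).trans ?_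
  rw [Finset.sum_const, Finset.card_range, nsmul_eq_mul]

end Pool.Agent.H69N.KP
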