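import Pool.Agent.H69N.KP.ClosP
import Pool.Agent.H69N.KB.Final

/-!
# The base is characteristic along families with rare coincidences of levels
-/

set_option autoImplicit false
set_option linter.unusedSectionVars false

open MeasureTheory Filter Topology
open scoped ENNReal

noncomputable section

namespace Pool.Agent.H69N.KP

open Pool.Agent.TH784.KE
open Pool.Agent.W761.Box (bx bxc BM Good1 bx_add bx_mul bx_sum bx_mono bx_abs bx_const_le
  bx_nonneg prod_update bxc_sub bxc_norm int_lim_le')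

variable {X : Type*} {mA mY mX : MeasurableSpace X} {μ : Measure X} [IsProbabilityMeasure μ]
variable {G : Type*} [Group G]
variable {Φ : G →* Equiv.Perm X} {ℓ : G → ℝ}
variable {J : Type*} [DecidableEq J] [Fintype J] {k : ℕ}

open Classical in
/-- the combinatorial assumptions on the whole family -/
structure Fam (ℓ : G → ℝ) (q : (Fin k → ℕ) → J → G) (dep : J → Fin k → Prop) : Prop where
  indep : ∀ v l, ¬ dep v l → ∀ n t, q (Function.update n l t) v = q n v
  some : ∀ v, ∃ l, dep v l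
  rare : ∀ v l, dep v l → Rare ℓ q v l
  close : ∀ v w, v ≠ w → ∀ R : ℝ, 0 < R → Tendsto (fun N => bx k N fun n =>
    if |ℓ (q n v) - ℓ (q n w)| < R then (1 : ℝ) else 0) atTop (𝓝 0)

theorem main_char (hK : KExt μ mA mY Φ ℓ) {s₀ : G} (hs₀ : 0 < ℓ s₀)
    {q : (Fin k → ℕ) → J → G} {dep : J → Fin k → Prop} (hP : Fam ℓ q dep)
    {f e : J → X → ℂ} (hf : ∀ v, @BM X mX (f v)) (he : ∀ v, @BM X mX (e v))
    (heY : ∀ v, Measurable[mY] (e v))
    (hex : (∀ v l, dep v l) ∨ (∀ v, ∃ c, ∀ x, e v x = c))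
    (happ : ∀ v, App (mX := mX) μ mA Φ (fun n => (Φ (q n v) : X → X)) (fun x => f v x - e v x)) :
    ∀ᵐ x ∂μ, Tendsto (fun N => bxc k N fun n => (∏ v, f v (Φ (q n v) x) -
      ∏ v, e v (Φ (q n v) x))) atTop (𝓝 0) := by
  classical
  have key : ∀ t : Finset J, t ≠ ∅ → ∀ᵐ x ∂μ, Tendsto (fun N => bxc k N fun n =>
      (∏ j ∈ t, (f j (Φ (q n j) x) - e j (Φ (q n j) x))) *
        ∏ j ∈ Finset.univ \ t, e j (Φ (q n j) x)) atTop (𝓝 0) := by
    intro t ht
    obtain ⟨j₀, hj₀⟩ := Finset.nonempty_of_ne_empty ht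
    obtain ⟨l₀, hl₀⟩ := hP.some j₀
    set U : Finset (Fin k) := Finset.univ.filter fun l => ∃ v ∈ t, dep v l with hU
    have hPt : Pol ℓ q t U dep :=
      { h1 := fun v _ l hl => hP.indep v l hl
        h2 := fun l hl => (Finset.mem_filter.1 hl).2
        h2' := fun l hl v hv hd => hl (Finset.mem_filter.2 ⟨Finset.mem_univ _, v, hv, hd⟩)
        rare := fun v _ l hl => hP.rare v l hl
        close := fun v _ w _ hvw => hP.close v w hvw
        ne := ⟨l₀, Finset.mem_filter.2 ⟨Finset.mem_univ _, j₀, hj₀, hl₀⟩⟩ }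
    have hz := zero_app hK hs₀ hPt
      (F := fun j => if j ∈ t then (fun x => f j x - e j x) else e j)
      (fun v => by
        by_cases hv : v ∈ t
        · simp only [hv, if_true]
          obtain ⟨m₁, C₁, b₁⟩ := hf v
          obtain ⟨m₂, C₂, b₂⟩ := he v
          exact ⟨m₁.sub m₂, C₁ + C₂, fun x => (norm_sub_le _ _).trans
            (add_le_add (b₁ x) (b₂ x))⟩
        · simp only [hv, if_false]
          exact he v)
      (fun v hv => by
        simp only [hv, if_true]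
        exact happ v)
      (fun v hv => by
        simp only [hv, if_false]
        refine ⟨heY v, fun l hl n s x => ?_⟩
        rcases hex with h | h
        · exact absurd (Finset.mem_filter.2 ⟨Finset.mem_univ _, j₀, hj₀, h j₀ l⟩) hl
        · obtain ⟨c, hc⟩ := h v
          rw [hc, hc])
    filter_upwards [hz] with x hx
    refine hx.congr fun N => ?_
    congr 1
    funext n
    rw [← Finset.prod_mul_prod_compl t, ← Finset.compl_eq_univ_sdiff]
    congr 1
    · refine Finset.prod_congr rfl fun j hj => ?_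
      rw [if_pos hj]
    · refine Finset.prod_congr rfl fun j hj => ?_
      rw [if_neg (Finset.mem_compl.1 hj)]
  have hall : ∀ᵐ x ∂μ, ∀ t : Finset J, t ≠ ∅ → Tendsto (fun N => bxc k N fun n =>
      (∏ j ∈ t, (f j (Φ (q n j) x) - e j (Φ (q n j) x))) *
        ∏ j ∈ Finset.univ \ t, e j (Φ (q n j) x)) atTop (𝓝 0) := by
    rw [ae_all_iff]
    intro t
    by_cases ht : t = ∅
    · exact Eventually.of_forall fun x h => absurd ht h
    · filter_upwards [key t ht] with x hx _
      exact hx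
  filter_upwards [hall] with x hx
  have hsum := tendsto_finsetSum ((Finset.univ : Finset J).powerset.erase ∅) fun t ht =>
    hx t (Finset.ne_of_mem_erase ht)
  rw [Finset.sum_const_zero] at hsum
  refine hsum.congr fun N => ?_
  rw [← bxc_sum]
  congr 1
  funext n
  have h1 := Finset.prod_add (fun j => f j (Φ (q n j) x) - e j (Φ (q n j) x))
    (fun j => e j (Φ (q n j) x)) (Finset.univ : Finset J)
  have h2 : ∏ j, (f j (Φ (q n j) x) - e j (Φ (q n j) x) + e j (Φ (q n j) x)) =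
      ∏ j, f j (Φ (q n j) x) := Finset.prod_congr rfl fun j _ => by ring
  rw [h2, ← Finset.add_sum_erase _ _ (Finset.empty_mem_powerset _)] at h1
  rw [h1, Finset.prod_empty, one_mul, Finset.sdiff_empty]
  ring

/-- finite memory relative to `𝒴` -/
def FinMem (μ : Measure X) (mA mY : MeasurableSpace X) (Φ : G →* Equiv.Perm X) (F : X → ℂ) :
    Prop :=
  @BM X mX F ∧ (∃ r : G, Measurable[cm mA Φ r] F) ∧
    ∃ s : G, μ[F | cm mA Φ s] =ᵐ[μ] μ[F | mY]

theorem fin0_of_mem (hK : KExt μ mA mY Φ ℓ) {F e : X → ℂ}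
    (hF : FinMem (mX := mX) μ mA mY Φ F) (he : @BM X mX e) (heY : Measurable[mY] e)
    (hee : e =ᵐ[μ] μ[F | mY]) : Fin0 (mX := mX) μ mA Φ (fun x => F x - e x) := by
  obtain ⟨⟨hm, C₁, hC₁⟩, ⟨r, hr⟩, s, hs⟩ := hF
  obtain ⟨hem, C₂, hC₂⟩ := he
  have hFi : Integrable F μ := Integrable.of_bound hm.aestronglyMeasurable C₁
    (Eventually.of_forall hC₁)
  have hei : Integrable e μ := Integrable.of_bound hem.aestronglyMeasurable C₂
    (Eventually.of_forall hC₂)
  refine ⟨⟨hm.sub hem, C₁ + C₂, fun x => (norm_sub_le _ _).trans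
    (add_le_add (hC₁ x) (hC₂ x))⟩, ⟨r, hr.sub (heY.mono (base_le hK.base r) le_rfl)⟩, s,
    fun B hB => ?_⟩
  rw [integral_sub hFi.integrableOn hei.integrableOn]
  have h1 : ∫ x in B, F x ∂μ = ∫ x in B, (μ[F | cm mA Φ s]) x ∂μ :=
    (setIntegral_condExp (cm_le hK.fl hK.filt s) hFi hB).symm
  have h2 : ∫ x in B, e x ∂μ = ∫ x in B, (μ[F | cm mA Φ s]) x ∂μ := by
    refine integral_congr_ae (ae_restrict_of_ae ?_)
    filter_upwards [hee, hs] with x hx1 hx2
    rw [hx1, hx2]
  rw [h1, h2, sub_self]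

/-- `f` is a uniform limit of functions with finite memory -/
def UReg (μ : Measure X) (mA mY : MeasurableSpace X) (Φ : G →* Equiv.Perm X) (f : X → ℂ) :
    Prop :=
  ∀ ε : ℝ, 0 < ε → ∃ F : X → ℂ, FinMem (mX := mX) μ mA mY Φ F ∧ ∀ᵐ x ∂μ, ‖f x - F x‖ ≤ ε

theorem App.of_ureg (hK : KExt μ mA mY Φ ℓ) {g : (Fin k → ℕ) → X → X}
    (hg : ∀ n, MeasurePreserving (g n) μ μ) {f e : X → ℂ} (hf : @BM X mX f)
    (hee : e =ᵐ[μ] μ[f | mY]) (hreg : UReg (mX := mX) μ mA mY Φ f) :
    App (mX := mX) μ mA Φ g (fun x => f x - e x) := by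
  intro ε δ hε hδ
  obtain ⟨F, hF, hFf⟩ := hreg (δ / 2) (half_pos hδ)
  have hYX : mY ≤ mX := hK.base.le.trans hK.filt.le
  obtain ⟨e', he', he'Y, he'e, -⟩ := exists_cond (μ := μ) hYX hF.1
  refine ⟨_, fin0_of_mem hK hF he' he'Y he'e, ?_⟩
  obtain ⟨hm, C₁, hC₁⟩ := hf
  obtain ⟨hFm, C₂, hC₂⟩ := hF.1
  have hfi : Integrable f μ := Integrable.of_bound hm.aestronglyMeasurable C₁
    (Eventually.of_forall hC₁)
  have hFi : Integrable F μ := Integrable.of_bound hFm.aestronglyMeasurable C₂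
    (Eventually.of_forall hC₂)
  have hdiff : ∀ᵐ x ∂μ, ‖e x - e' x‖ ≤ δ / 2 := by
    have h1 : μ[fun x => f x - F x | mY] =ᵐ[μ] fun x => (μ[f | mY]) x - (μ[F | mY]) x :=
      condExp_sub hfi hFi mY
    have h2 : ∀ᵐ x ∂μ, ‖(μ[fun x => f x - F x | mY]) x‖ ≤ δ / 2 := by
      have h4 : ∀ᵐ x ∂μ, ‖(μ[fun x => f x - F x | mY]) x‖ ≤
          (μ[fun x => ‖f x - F x‖ | mY]) x :=
        norm_condExp_le (μ := μ) (m := mY) (f := fun x => f x - F x)
      have h5 : (μ[fun x => ‖f x - F x‖ | mY]) ≤ᵐ[μ] μ[fun _ => δ / 2 | mY] :=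
        condExp_mono (hfi.sub hFi).norm (integrable_const _) hFf
      rw [condExp_const hYX] at h5
      filter_upwards [h4, h5] with x hx4 hx5
      exact hx4.trans hx5
    filter_upwards [h1, h2, hee, he'e] with x hx1 hx2 hx3 hx4
    rw [hx3, hx4, ← hx1]
    exact hx2
  have hae : ∀ᵐ x ∂μ, ∀ n, ‖(f (g n x) - e (g n x)) - (F (g n x) - e' (g n x))‖ ≤ δ := by
    rw [ae_all_iff]
    intro n
    have h1 := (hg n).quasiMeasurePreserving.ae hFf
    have h2 := (hg n).quasiMeasurePreserving.ae hdiff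
    filter_upwards [h1, h2] with x hx1 hx2
    have : (f (g n x) - e (g n x)) - (F (g n x) - e' (g n x)) =
        (f (g n x) - F (g n x)) - (e (g n x) - e' (g n x)) := by ring
    rw [this]
    refine (norm_sub_le _ _).trans ?_
    linarith
  have hz : μ {x | ¬ ∀ᶠ N in atTop, bx k N (fun n =>
      ‖(f (g n x) - e (g n x)) - (F (g n x) - e' (g n x))‖) ≤ δ} = 0 := by
    rw [← nonpos_iff_eq_zero]
    refine (measure_mono_ae ?_).trans (measure_empty (μ := μ)).le
    filter_upwards [hae] with x hx hcon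
    refine hcon (Eventually.of_forall fun N => ?_)
    exact (bx_mono hx).trans (bx_const_le hδ.le)
  rw [hz]
  exact bot_le

end Pool.Agent.H69N.KP
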