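import Mathlib

/-!
# Statements: real polynomials on boxes are rarely small
-/

set_option autoImplicit false

open Filter Topology

noncomputable section

namespace Pool.Agent.H69N.KP

/-- the average over the box `[0, N 0) × ⋯ × [0, N (k - 1))` -/
def bx (k : ℕ) (N : Fin k → ℕ) (f : (Fin k → ℕ) → ℝ) : ℝ :=
  (∏ j, (N j : ℝ))⁻¹ * ∑ m ∈ Fintype.piFinset (fun j => Finset.range (N j)), f m

/-- the value of a polynomial at a vector of natural numbers -/
def ev {k : ℕ} (Q : MvPolynomial (Fin k) ℝ) (n : Fin k → ℕ) : ℝ :=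
  MvPolynomial.eval (fun l => (n l : ℝ)) Q

/-- (A) In every direction `l` on which the polynomial depends there is a regularity indicator
`c` (in the proof: the modulus of the leading coefficient in the direction `l`), which does not
depend on `n l`, such that `κ ≤ c n` bounds the number of close values on the line, and `c` is
rarely small on large boxes. -/
def StmA : Prop :=
  ∀ (k : ℕ) (Q : MvPolynomial (Fin k) ℝ) (l : Fin k), Q.degreeOf l ≠ 0 →
    ∃ c : (Fin k → ℕ) → ℝ, (∀ n t, c (Function.update n l t) = c n) ∧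
      (∀ κ R : ℝ, 0 < κ → ∃ C : ℕ, ∀ n : Fin k → ℕ, κ ≤ c n → ∀ (a : ℝ) (A : Finset ℕ),
        (∀ t ∈ A, |ev Q (Function.update n l t) - a| < R) → A.card ≤ C) ∧
      (∀ ε : ℝ, 0 < ε → ∃ κ : ℝ, 0 < κ ∧ ∃ M₀ : ℕ, ∀ N : Fin k → ℕ, (∀ j, M₀ ≤ N j) →
        (bx k N fun n => by classical exact if c n < κ then (1 : ℝ) else 0) ≤ ε)

/-- (B) A polynomial which depends on some variable is rarely bounded. -/
def StmB : Prop :=
  ∀ (k : ℕ) (Q : MvPolynomial (Fin k) ℝ) (l : Fin k), Q.degreeOf l ≠ 0 → ∀ R : ℝ,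
    Tendsto (fun N : Fin k → ℕ => bx k N fun n => by
      classical exact if |ev Q n| < R then (1 : ℝ) else 0) atTop (𝓝 0)

end Pool.Agent.H69N.KP
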