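import Pool.Agent.H69N.KP.RegP
import Pool.Agent.H69N.KP.Stm

/-!
# Polynomial exponents
-/

set_option autoImplicit false
set_option linter.unusedSectionVars false

open MeasureTheory Filter Topology
open scoped ENNReal

noncomputable section

namespace Pool.Agent.H69N.KP

open Pool.Agent.TH784.KE
open Pool.Agent.W761.Box (bxc BM Good1)

variable {X : Type*} {mA mY mX : MeasurableSpace X} {μ : Measure X} [IsProbabilityMeasure μ]
variable {G : Type*} [Group G]
variable {Φ : G →* Equiv.Perm X} {ℓ : G → ℝ}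
variable {J : Type*} [DecidableEq J] [Fintype J] {k d : ℕ}

/-- the word `T_1^(P_1(m)) ⋯ T_d^(P_d(m))` -/
def wrd (T : Fin d → G) (P : Fin d → MvPolynomial (Fin k) ℤ) (m : Fin k → ℕ) : G :=
  (List.ofFn fun i => T i ^ (MvPolynomial.eval (fun l => ((m l : ℕ) : ℤ)) (P i))).prod

/-- the level polynomial -/
def lev (a : Fin d → ℝ) (P : Fin d → MvPolynomial (Fin k) ℤ) : MvPolynomial (Fin k) ℝ :=
  ∑ i, MvPolynomial.C (a i) * MvPolynomial.map (Int.castRingHom ℝ) (P i)

theorem Filt.zpow (hA : Filt mX mA Φ ℓ) (a : G) (z : ℤ) : ℓ (a ^ z) = z * ℓ a := by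
  cases z with
  | ofNat n =>
    rw [Int.ofNat_eq_natCast, zpow_natCast, hA.pow]
    push_cast
    rfl
  | negSucc n =>
    rw [zpow_negSucc, hA.inv, hA.pow]
    push_cast
    ring

theorem ell_ofFn (hA : Filt mX mA Φ ℓ) : ∀ (d : ℕ) (g : Fin d → G),
    ℓ (List.ofFn g).prod = ∑ i, ℓ (g i) := by
  intro d
  induction d with
  | zero => intro g; simp [hA.one]
  | succ d ih =>
    intro g
    rw [List.ofFn_succ, List.prod_cons, hA.hom, ih, Fin.sum_univ_succ]

theorem ev_lev (a : Fin d → ℝ) (P : Fin d → MvPolynomial (Fin k) ℤ) (m : Fin k → ℕ) :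
    ev (lev a P) m =
      ∑ i, a i * ((MvPolynomial.eval (fun l => ((m l : ℕ) : ℤ)) (P i) : ℤ) : ℝ) := by
  unfold ev lev
  rw [map_sum]
  refine Finset.sum_congr rfl fun i _ => ?_
  rw [map_mul, MvPolynomial.eval_C, MvPolynomial.eval_map]
  congr 1
  have h := MvPolynomial.eval₂_comp_left (Int.castRingHom ℝ) (RingHom.id ℤ)
    (fun l => ((m l : ℕ) : ℤ)) (P i)
  rw [RingHomCompTriple.comp_eq] at h
  rw [MvPolynomial.eval, MvPolynomial.coe_eval₂Hom]
  rw [show ((MvPolynomial.eval₂ (RingHom.id ℤ) (fun l => ((m l : ℕ) : ℤ)) (P i) : ℤ) : ℝ) =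
    Int.castRingHom ℝ (MvPolynomial.eval₂ (RingHom.id ℤ) (fun l => ((m l : ℕ) : ℤ)) (P i)) from rfl,
    h]
  congr 1

theorem ell_wrd (hA : Filt mX mA Φ ℓ) (T : Fin d → G) (P : Fin d → MvPolynomial (Fin k) ℤ)
    (m : Fin k → ℕ) : ℓ (wrd T P m) = ev (lev (fun i => ℓ (T i)) P) m := by
  unfold wrd
  rw [ell_ofFn hA, ev_lev]
  refine Finset.sum_congr rfl fun i _ => ?_
  rw [Filt.zpow hA, mul_comm]

theorem eval_update {R : Type*} [CommRing R] (Q : MvPolynomial (Fin k) R) {l : Fin k}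
    (h : Q.degreeOf l = 0) (x : Fin k → R) (t : R) :
    MvPolynomial.eval (Function.update x l t) Q = MvPolynomial.eval x Q := by
  rw [MvPolynomial.eval_eq', MvPolynomial.eval_eq']
  refine Finset.sum_congr rfl fun e he => ?_
  congr 1
  refine Finset.prod_congr rfl fun i _ => ?_
  by_cases hi : i = l
  · subst hi
    have h1 : e i ≤ Q.degreeOf i := MvPolynomial.monomial_le_degreeOf i he
    have h2 : e i = 0 := by omega
    rw [h2, pow_zero, pow_zero]
  · rw [Function.update_of_ne hi]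

theorem wrd_indep (T : Fin d → G) (P : Fin d → MvPolynomial (Fin k) ℤ) {l : Fin k}
    (h : ∀ i, (P i).degreeOf l = 0) (m : Fin k → ℕ) (t : ℕ) :
    wrd T P (Function.update m l t) = wrd T P m := by
  unfold wrd
  congr 2
  funext i
  congr 1
  have e : (fun l' => ((Function.update m l t l' : ℕ) : ℤ)) =
      Function.update (fun l' => ((m l' : ℕ) : ℤ)) l (t : ℤ) := by
    funext l'
    by_cases hl : l' = l
    · subst hl
      rw [Function.update_self, Function.update_self]
    · rw [Function.update_of_ne hl, Function.update_of_ne hl]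
  rw [e, eval_update _ (h i)]

theorem exists_deg {Q : MvPolynomial (Fin k) ℝ} (h : Q.totalDegree ≠ 0) :
    ∃ l, Q.degreeOf l ≠ 0 := by
  by_contra hcon
  push Not at hcon
  apply h
  rw [MvPolynomial.totalDegree_eq_zero_iff]
  intro m hm l
  have h1 : m l ≤ Q.degreeOf l := MvPolynomial.monomial_le_degreeOf l hm
  rw [hcon l] at h1
  omega

theorem fam_poly (hA : Filt mX mA Φ ℓ) (sA : StmA) (sB : StmB) (T : Fin d → G)
    (P : Fin d → J → MvPolynomial (Fin k) ℤ)
    (h1 : ∀ j l, (lev (fun i => ℓ (T i)) fun i => P i j).degreeOf l = 0 →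
      ∀ i, (P i j).degreeOf l = 0)
    (h2 : ∀ j, (lev (fun i => ℓ (T i)) fun i => P i j).totalDegree ≠ 0)
    (h3 : ∀ i j, i ≠ j → (lev (fun l => ℓ (T l)) (fun l => P l i) -
      lev (fun l => ℓ (T l)) (fun l => P l j)).totalDegree ≠ 0) :
    Fam ℓ (fun m j => wrd T (fun i => P i j) m)
      (fun j l => (lev (fun i => ℓ (T i)) fun i => P i j).degreeOf l ≠ 0) := by
  classical
  refine ⟨fun j l hl n t => ?_, fun j => exists_deg (h2 j), fun j l hl => ?_,
    fun i j hij R hR => ?_⟩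
  · rw [not_not] at hl
    exact wrd_indep T (fun i => P i j) (h1 j l hl) n t
  · obtain ⟨c, -, hc2, hc3⟩ := sA k _ l hl
    intro R ε hε
    obtain ⟨κ, hκ, M₀, hM₀⟩ := hc3 ε hε
    obtain ⟨C, hC⟩ := hc2 κ R hκ
    refine ⟨C, M₀, fun N hN => le_trans ?_ (hM₀ N hN)⟩
    refine Pool.Agent.W761.Box.bx_mono fun n => ?_
    by_cases hn : c n < κ
    · rw [if_pos hn]
      split_ifs <;> norm_num
    · rw [if_neg hn, if_pos]
      intro a A hA'
      refine hC n (not_lt.1 hn) a A fun t ht => ?_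
      have := hA' t ht
      rwa [ell_wrd hA] at this
  · obtain ⟨l, hl⟩ := exists_deg (h3 i j hij)
    refine (sB k _ l hl R).congr fun N => ?_
    show _ = Pool.Agent.W761.Box.bx k N _
    unfold bx Pool.Agent.W761.Box.bx
    congr 1
    refine Finset.sum_congr rfl fun n _ => ?_
    beta_reduce
    rw [ell_wrd hA, ell_wrd hA]
    have e : ev (lev (fun l => ℓ (T l)) (fun l => P l i) -
        lev (fun l => ℓ (T l)) (fun l => P l j)) n =
        ev (lev (fun l => ℓ (T l)) (fun l => P l i)) n -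
        ev (lev (fun l => ℓ (T l)) (fun l => P l j)) n := by
      unfold ev
      rw [map_sub]
    rw [e]

theorem exists_pos (hA : Filt mX mA Φ ℓ) (T : Fin d → G) (P : Fin d → MvPolynomial (Fin k) ℤ)
    (h : (lev (fun i => ℓ (T i)) P).totalDegree ≠ 0) : ∃ s₀ : G, 0 < ℓ s₀ := by
  by_contra hcon
  push Not at hcon
  apply h
  have h0 : ∀ i, ℓ (T i) = 0 := by
    intro i
    have h1 := hcon (T i)
    have h2 := hcon (T i)⁻¹
    rw [hA.inv] at h2
    linarith
  unfold lev
  simp [h0]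

end Pool.Agent.H69N.KP
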