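import Pool.Agent.H69N.KP.MainP

/-!
# Kolmogorov actions: functions between functions with finite memory
-/

set_option autoImplicit false
set_option linter.unusedSectionVars false

open MeasureTheory Filter Topology
open scoped ENNReal

noncomputable section

namespace Pool.Agent.H69N.KP

open Pool.Agent.TH784.KE
open Pool.Agent.W761.Box (bx bxc BM Good1 bx_add bx_mul bx_sum bx_mono bx_abs bx_const_le
  bx_nonneg prod_update bxc_sub bxc_norm int_lim_le')

variable {X : Type*} {mA mX : MeasurableSpace X} {μ : Measure X} [IsProbabilityMeasure μ]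
variable {G : Type*} [Group G]
variable {Φ : G →* Equiv.Perm X} {ℓ : G → ℝ}
variable {J : Type*} [DecidableEq J] [Fintype J] {k : ℕ}

/-- `f` lies between functions with finite memory with close integrals -/
def Reg (μ : Measure X) (mA : MeasurableSpace X) (Φ : G →* Equiv.Perm X) (f : X → ℂ) : Prop :=
  ∀ ε : ℝ, 0 < ε → ∃ (F : X → ℂ) (u : X → ℝ), FinMem (mX := mX) μ mA ⊥ Φ F ∧
    FinMem (mX := mX) μ mA ⊥ Φ (fun x => (u x : ℂ)) ∧ (∀ᵐ x ∂μ, ‖f x - F x‖ ≤ u x) ∧
    ∫ x, u x ∂μ ≤ ε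

theorem bot_eq (f : X → ℂ) :
    (fun _ => ∫ x, f x ∂μ) =ᵐ[μ] μ[f | (⊥ : MeasurableSpace X)] := by
  rw [condExp_bot]

theorem fin0_bot (hK : KExt μ mA ⊥ Φ ℓ) {F : X → ℂ}
    (hF : FinMem (mX := mX) μ mA ⊥ Φ F) :
    Fin0 (mX := mX) μ mA Φ (fun x => F x - ∫ x, F x ∂μ) := by
  obtain ⟨hm, C₁, hC₁⟩ := hF.1
  have hFi : Integrable F μ := Integrable.of_bound hm.aestronglyMeasurable C₁
    (Eventually.of_forall hC₁)
  exact fin0_of_mem hK hF ⟨measurable_const, ‖∫ x, F x ∂μ‖, fun x => le_rfl⟩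
    measurable_const (bot_eq F)

/-- averages of one function with finite memory -/
theorem single_mem (hK : KExt μ mA ⊥ Φ ℓ) {s₀ : G} (hs₀ : 0 < ℓ s₀)
    {q : (Fin k → ℕ) → J → G} {dep : J → Fin k → Prop} (hP : Fam ℓ q dep) (v : J)
    {u : X → ℝ} (hu : FinMem (mX := mX) μ mA ⊥ Φ (fun x => (u x : ℂ))) :
    ∀ᵐ x ∂μ, Tendsto (fun N => bx k N fun n => u (Φ (q n v) x)) atTop (𝓝 (∫ x, u x ∂μ)) := by
  classical
  have hP' : Fam (J := Unit) ℓ (fun n _ => q n v) (fun _ l => dep v l) :=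
    { indep := fun _ l hl n t => hP.indep v l hl n t
      some := fun _ => hP.some v
      rare := fun _ l hl => hP.rare v l hl
      close := fun a b hab => absurd (Subsingleton.elim a b) hab }
  have h0 := fin0_bot hK hu
  have h1 := main_char hK hs₀ hP' (f := fun _ x => (u x : ℂ))
    (e := fun _ _ => ∫ x, (u x : ℂ) ∂μ) (fun _ => hu.1)
    (fun _ => ⟨measurable_const, ‖∫ x, (u x : ℂ) ∂μ‖, fun x => le_rfl⟩)
    (fun _ => measurable_const) (Or.inr fun _ => ⟨_, fun _ => rfl⟩)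
    (fun _ => App.of_fin h0)
  filter_upwards [h1] with x hx
  have e1 : ∫ x, (u x : ℂ) ∂μ = ((∫ x, u x ∂μ : ℝ) : ℂ) := integral_ofReal
  simp only [Finset.univ_unique, Finset.prod_singleton, e1] at hx
  have h2 : Tendsto (fun N => bx k N fun n => (u (Φ (q n v) x) - ∫ x, u x ∂μ)) atTop (𝓝 0) := by
    have h5 := (Complex.continuous_re.tendsto _).comp hx
    rw [Complex.zero_re] at h5
    refine h5.congr fun N => ?_
    rw [Function.comp_apply]
    have h6 : (bxc k N fun n => ((u (Φ (q n v) x) : ℂ) - ((∫ x, u x ∂μ : ℝ) : ℂ))) =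
        ((bx k N fun n => (u (Φ (q n v) x) - ∫ x, u x ∂μ) : ℝ) : ℂ) := by
      rw [← bxc_cast]
      congr 1
      funext n
      push_cast
      rfl
    rw [h6, Complex.ofReal_re]
  have h3 := h2.add_const (∫ x, u x ∂μ)
  rw [zero_add] at h3
  refine (tendsto_congr' ?_).1 h3
  filter_upwards [eventually_ge_atTop (fun _ : Fin k => 1)] with N hN
  have hconst : bx k N (fun _ => ∫ x, u x ∂μ) = ∫ x, u x ∂μ := by
    unfold Pool.Agent.W761.Box.bx
    rw [Finset.sum_const, Fintype.card_piFinset, nsmul_eq_mul]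
    simp only [Finset.card_range]
    push_cast
    rw [← mul_assoc, inv_mul_cancel₀, one_mul]
    refine Finset.prod_ne_zero_iff.2 fun j _ => ?_
    have hNj : 1 ≤ N j := hN j
    exact_mod_cast (by omega : N j ≠ 0)
  rw [Pool.Agent.W761.Box.bx_sub, hconst, sub_add_cancel]

theorem App.of_reg (hK : KExt μ mA ⊥ Φ ℓ) {s₀ : G} (hs₀ : 0 < ℓ s₀)
    {q : (Fin k → ℕ) → J → G} {dep : J → Fin k → Prop} (hP : Fam ℓ q dep) (v : J)
    {f : X → ℂ} (hf : @BM X mX f) (hreg : Reg (mX := mX) μ mA Φ f) :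
    App (mX := mX) μ mA Φ (fun n => (Φ (q n v) : X → X)) (fun x => f x - ∫ x, f x ∂μ) := by
  intro ε δ hε hδ
  obtain ⟨F, u, hF, hu, hfu, hui⟩ := hreg (δ / 3) (by positivity)
  refine ⟨_, fin0_bot hK hF, ?_⟩
  obtain ⟨hm, C₁, hC₁⟩ := hf
  obtain ⟨hFm, C₂, hC₂⟩ := hF.1
  obtain ⟨hum, C₃, hC₃⟩ := hu.1
  have hfi : Integrable f μ := Integrable.of_bound hm.aestronglyMeasurable C₁
    (Eventually.of_forall hC₁)
  have hFi : Integrable F μ := Integrable.of_bound hFm.aestronglyMeasurable C₂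
    (Eventually.of_forall hC₂)
  have huI : Integrable u μ := by
    have h1 : Measurable u := by
      have := Complex.measurable_re.comp hum
      exact this
    refine Integrable.of_bound h1.aestronglyMeasurable C₃ (Eventually.of_forall fun x => ?_)
    have := hC₃ x
    rwa [Complex.norm_real] at this
  have hdiff : ‖∫ x, f x ∂μ - ∫ x, F x ∂μ‖ ≤ δ / 3 := by
    rw [← integral_sub hfi hFi]
    refine (norm_integral_le_integral_norm _).trans (le_trans ?_ hui)
    exact integral_mono_ae (hfi.sub hFi).norm huI hfu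
  have hae : ∀ᵐ x ∂μ, ∀ n, ‖f (Φ (q n v) x) - F (Φ (q n v) x)‖ ≤ u (Φ (q n v) x) := by
    rw [ae_all_iff]
    intro n
    exact (hK.fl (q n v)).quasiMeasurePreserving.ae hfu
  have hz : μ {x | ¬ ∀ᶠ N in atTop, bx k N (fun n =>
      ‖(f (Φ (q n v) x) - ∫ x, f x ∂μ) - (F (Φ (q n v) x) - ∫ x, F x ∂μ)‖) ≤ δ} = 0 := by
    rw [← nonpos_iff_eq_zero]
    refine (measure_mono_ae ?_).trans (measure_empty (μ := μ)).le
    filter_upwards [hae, single_mem hK hs₀ hP v hu] with x hx hx2 hcon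
    refine hcon ?_
    have h3 := (tendsto_order.mp hx2).2 (δ / 3 + δ / 3) (by linarith)
    filter_upwards [h3] with N hN
    have h4 : ∀ n, ‖(f (Φ (q n v) x) - ∫ x, f x ∂μ) - (F (Φ (q n v) x) - ∫ x, F x ∂μ)‖ ≤
        u (Φ (q n v) x) + δ / 3 := by
      intro n
      have : (f (Φ (q n v) x) - ∫ x, f x ∂μ) - (F (Φ (q n v) x) - ∫ x, F x ∂μ) =
          (f (Φ (q n v) x) - F (Φ (q n v) x)) - (∫ x, f x ∂μ - ∫ x, F x ∂μ) := by ring
      rw [this]
      exact (norm_sub_le _ _).trans (add_le_add (hx n) hdiff)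
    refine (bx_mono h4).trans ?_
    rw [bx_add]
    have h5 := bx_const_le (k := k) (N := N) (C := δ / 3) (by positivity)
    linarith
  rw [hz]
  exact bot_le

/-- **Kolmogorov actions.** -/
theorem main_act (hK : KExt μ mA ⊥ Φ ℓ) {s₀ : G} (hs₀ : 0 < ℓ s₀)
    {q : (Fin k → ℕ) → J → G} {dep : J → Fin k → Prop} (hP : Fam ℓ q dep)
    {f : J → X → ℂ} (hf : ∀ v, MemLp (f v) ∞ μ)
    (hreg : ∀ v, Reg (mX := mX) μ mA Φ (f v) ∨ Good1 μ (fun n => (Φ (q n v) : X → X))) :
    ∀ᵐ x ∂μ, Tendsto (fun N => bxc k N fun n => ∏ v, f v (Φ (q n v) x)) atTop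
      (𝓝 (∏ v, ∫ x, f v x ∂μ)) := by
  classical
  choose g hg hfg using fun v => Pool.Agent.H69N.KB.bm_of_memLp (hf v)
  have hint : ∀ v, ∫ x, f v x ∂μ = ∫ x, g v x ∂μ := fun v => integral_congr_ae (hfg v)
  have hgi : ∀ v, Integrable (g v) μ := by
    intro v
    obtain ⟨hm, C, hC⟩ := hg v
    exact Integrable.of_bound hm.aestronglyMeasurable C (Eventually.of_forall hC)
  have happ : ∀ v, App (mX := mX) μ mA Φ (fun n => (Φ (q n v) : X → X))
      (fun x => g v x - ∫ x, g v x ∂μ) := by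
    intro v
    rcases hreg v with h | h
    · refine App.of_reg hK hs₀ hP v (hg v) fun ε hε => ?_
      obtain ⟨F, u, hF, hu, hfu, hui⟩ := h ε hε
      refine ⟨F, u, hF, hu, ?_, hui⟩
      filter_upwards [hfu, hfg v] with x hx1 hx2
      rwa [← hx2]
    · obtain ⟨hm, C, hC⟩ := hg v
      refine App.of_good hK hs₀ (fun n => hK.fl (q n v)) h
        ⟨hm.sub_const _, C + ‖∫ x, g v x ∂μ‖, fun x => (norm_sub_le _ _).trans
          (add_le_add (hC x) le_rfl)⟩ fun B hB => ?_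
      rcases MeasurableSpace.measurableSet_bot_iff.1 hB with h | h
      · rw [h]
        simp
      · rw [h, setIntegral_univ, integral_sub (hgi v) (integrable_const _), integral_const]
        simp
  have hmain := main_char hK hs₀ hP (f := g) (e := fun v _ => ∫ x, g v x ∂μ) hg
    (fun v => ⟨measurable_const, ‖∫ x, g v x ∂μ‖, fun x => le_rfl⟩)
    (fun v => measurable_const) (Or.inr fun v => ⟨_, fun _ => rfl⟩) happ
  have h1 : ∀ᵐ x ∂μ, ∀ (n : Fin k → ℕ) (j : J), f j (Φ (q n j) x) = g j (Φ (q n j) x) := by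
    rw [ae_all_iff]
    intro n
    rw [ae_all_iff]
    intro j
    exact (hK.fl _).quasiMeasurePreserving.ae (hfg j)
  filter_upwards [hmain, h1] with x hx hx1
  simp only [hx1, hint]
  have h3 := hx.add_const (∏ v, ∫ x, g v x ∂μ)
  rw [zero_add] at h3
  refine (tendsto_congr' ?_).1 h3
  filter_upwards [eventually_ge_atTop (fun _ : Fin k => 1)] with N hN
  have hconst : bxc k N (fun _ => ∏ v, ∫ x, g v x ∂μ) = ∏ v, ∫ x, g v x ∂μ := by
    unfold Pool.Agent.W761.Box.bxc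
    rw [Finset.sum_const, Fintype.card_piFinset, nsmul_eq_mul]
    simp only [Finset.card_range]
    push_cast
    rw [← mul_assoc, inv_mul_cancel₀, one_mul]
    refine Finset.prod_ne_zero_iff.2 fun j _ => ?_
    have hNj : 1 ≤ N j := hN j
    exact_mod_cast (by omega : N j ≠ 0)
  rw [bxc_sub, hconst, sub_add_cancel]

end Pool.Agent.H69N.KP
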