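import Pool.Agent.H69N.KP.BoxP

/-!
# Convergence to zero for functions with finite memory
-/

set_option autoImplicit false
set_option linter.unusedSectionVars false

open MeasureTheory Filter Topology

noncomputable section

namespace Pool.Agent.H69N.KP

open Pool.Agent.TH784.KE
open Pool.Agent.W761.Box (bx bxc BM bx_add bx_mul bx_sum bx_mono bx_abs bx_const_le bx_nonneg)
open Pool.Agent.TH784.AA (bxs mem_bxs vol vol_pos vol_nonneg card_bxs sum_fiber bxs_mono)

variable {X : Type*} {mA mY mX : MeasurableSpace X} {μ : Measure X} [IsProbabilityMeasure μ]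
variable {G : Type*} [Group G]
variable {Φ : G →* Equiv.Perm X} {ℓ : G → ℝ}
variable {J : Type*} [DecidableEq J] [Fintype J] {k : ℕ}

open Classical in
/-- the combinatorial assumptions on the family `q` -/
structure Pol (ℓ : G → ℝ) (q : (Fin k → ℕ) → J → G) (S : Finset J) (U : Finset (Fin k))
    (dep : J → Fin k → Prop) : Prop where
  h1 : ∀ v ∈ S, ∀ l, ¬ dep v l → ∀ n t, q (Function.update n l t) v = q n v
  h2 : ∀ l ∈ U, ∃ v ∈ S, dep v l
  h2' : ∀ l ∉ U, ∀ v ∈ S, ¬ dep v l
  rare : ∀ v ∈ S, ∀ l, dep v l → Rare ℓ q v l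
  close : ∀ v ∈ S, ∀ w ∈ S, v ≠ w → ∀ R : ℝ, 0 < R → Tendsto (fun N => bx k N fun n =>
    if |ℓ (q n v) - ℓ (q n w)| < R then (1 : ℝ) else 0) atTop (𝓝 0)
  ne : U.Nonempty

/-- invariance in the coordinates outside `U` -/
def InvU {α : Type*} (Φ : G →* Equiv.Perm X) (q : (Fin k → ℕ) → J → G) (U : Finset (Fin k))
    (v : J) (f : X → α) : Prop :=
  ∀ l ∉ U, ∀ n t x, f (Φ (q (Function.update n l t) v) x) = f (Φ (q n v) x)

/-- condition on a real function -/
def AdmR (μ : Measure X) (mA mY : MeasurableSpace X) (Φ : G →* Equiv.Perm X)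
    (q : (Fin k → ℕ) → J → G) (S : Finset J) (U : Finset (Fin k)) (v : J) (f : X → ℝ) : Prop :=
  (∀ x, |f x| ≤ 1) ∧ (v ∈ S → (∃ r : G, Measurable[cm mA Φ r] f) ∧
    ∃ s : G, CE μ (cm mA Φ s) f (fun _ => 0)) ∧
    (v ∉ S → Measurable[mY] f ∧ InvU Φ q U v f)

theorem CE.zero_mono (hA : Filt mX mA Φ ℓ) {s s' : G} (h : ℓ s' ≤ ℓ s)
    {f : X → ℝ} (hf : CE μ (cm mA Φ s) f (fun _ => 0)) : CE μ (cm mA Φ s') f (fun _ => 0) :=
  ⟨measurable_const, fun x => by simp, fun h' hh' hb =>
    hf.2.2 h' (hh'.mono (cm_mono hA h) le_rfl) hb⟩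

theorem zero_realR (hK : KExt μ mA mY Φ ℓ) {s₀ : G} (hs₀ : 0 < ℓ s₀)
    {S : Finset J} {q : (Fin k → ℕ) → J → G} {U : Finset (Fin k)} {dep : J → Fin k → Prop}
    (hP : Pol ℓ q S U dep)
    {f : J → X → ℝ} (hf : ∀ v, AdmR μ mA mY Φ q S U v (f v)) :
    ∀ᵐ x ∂μ, Tendsto (fun N => bx k N fun n => ∏ v, f v (Φ (q n v) x)) atTop (𝓝 0) := by
  classical
  have hr' : ∀ v : J, ∃ r s : G, v ∈ S → Measurable[cm mA Φ r] (f v) ∧
      CE μ (cm mA Φ s) (f v) (fun _ => 0) := by
    intro v
    by_cases hv : v ∈ S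
    · obtain ⟨⟨r, hr⟩, s, hs⟩ := (hf v).2.1 hv
      exact ⟨r, s, fun _ => ⟨hr, hs⟩⟩
    · exact ⟨1, 1, fun h => absurd h hv⟩
  choose r₀ s₁ hrs using hr'
  obtain ⟨r, hr⟩ := exists_upper hK.filt hs₀ r₀
  obtain ⟨s₂, hs₂⟩ := exists_lower hK.filt hs₀ s₁
  obtain ⟨s, hs⟩ := exists_lower (J := Bool) hK.filt hs₀ (fun b => if b then s₂ else r)
  have hss₂ : ℓ s ≤ ℓ s₂ := hs true
  have hsr : ℓ s ≤ ℓ r := hs false
  have hFm : ∀ v ∈ S, Measurable[cm mA Φ r] (f v) := fun v hv =>
    (hrs v hv).1.mono (cm_mono hK.filt (hr v)) le_rfl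
  have hCE : ∀ v ∈ S, CE μ (cm mA Φ s) (f v) (fun _ => 0) := fun v hv =>
    CE.zero_mono hK.filt (hss₂.trans (hs₂ v)) (hrs v hv).2
  set R : ℝ := max (ℓ r - ℓ s) 1 with hRdef
  have hR : ℓ r - ℓ s ≤ R := le_max_left _ _
  have hR0 : 0 < R := lt_of_lt_of_le one_pos (le_max_right _ _)
  have hbd : ∀ η : ℝ, 0 < η → ∀ᵐ x ∂μ, ∀ᶠ N : Fin k → ℕ in atTop,
      |bx k N fun n => ∏ v, f v (Φ (q n v) x)| ≤
        η + bx k N fun n => errb Φ ℓ R (fun _ _ => 0) S (q n) x := fun η hη =>
    bound_aeR hK.fl hK.filt hK.base hP.ne dep hP.h1 hP.h2 hP.h2' hP.rare hsr hR hR0 hFm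
      (fun v => (hf v).1) (fun v hv => ((hf v).2.2 hv).1) hCE
      (fun l hl v hv n t x => ((hf v).2.2 hv).2 l hl n t x) hη
  have herr : ∀ x, Tendsto (fun N => bx k N fun n => errb Φ ℓ R (fun _ _ => 0) S (q n) x)
      atTop (𝓝 0) := by
    intro x
    have e : ∀ N : Fin k → ℕ, (bx k N fun n => errb Φ ℓ R (fun _ _ => 0) S (q n) x) =
        ∑ v ∈ S, ∑ w ∈ S.erase v, bx k N
          (fun n => if |ℓ (q n v) - ℓ (q n w)| < R then (1 : ℝ) else 0) := by
      intro N
      unfold errb
      simp only [abs_zero, Finset.sum_const_zero, zero_add]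
      rw [bx_sum]
      refine Finset.sum_congr rfl fun v _ => ?_
      rw [bx_sum]
    simp only [e]
    have h5 : Tendsto (fun N => ∑ v ∈ S, ∑ w ∈ S.erase v, bx k N
        (fun n => if |ℓ (q n v) - ℓ (q n w)| < R then (1 : ℝ) else 0))
        atTop (𝓝 (∑ v ∈ S, ∑ _w ∈ S.erase v, (0 : ℝ))) := by
      refine tendsto_finsetSum _ fun v hv => tendsto_finsetSum _ fun w hw => ?_
      exact hP.close v hv w (Finset.mem_of_mem_erase hw) (Finset.ne_of_mem_erase hw).symm R hR0
    rw [Finset.sum_eq_zero fun v _ => Finset.sum_const_zero] at h5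
    exact h5
  have hall := ae_all_iff.mpr fun i : ℕ => hbd (1 / ((i : ℝ) + 1)) (by positivity)
  filter_upwards [hall] with x hx
  rw [Metric.tendsto_nhds]
  intro ε hε
  obtain ⟨i, hi⟩ := exists_nat_one_div_lt (half_pos hε)
  filter_upwards [hx i, (tendsto_order.mp (herr x)).2 (ε / 2) (half_pos hε)] with N hN1 hN2
  rw [Real.dist_eq, sub_zero]
  linarith

/-- a bounded function with vanishing integrals has conditional expectation zero -/
theorem CE_of_int {m : MeasurableSpace X} (hm : m ≤ mX) {f : X → ℝ} (hf : Measurable[mX] f)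
    (hb : ∀ x, |f x| ≤ 1) (h0 : ∀ B, MeasurableSet[m] B → ∫ x in B, f x ∂μ = 0) :
    CE μ m f (fun _ => 0) := by
  obtain ⟨g, hg, hge⟩ := exists_CE (μ := μ) hm hf hb
  have hfi : Integrable f μ := Integrable.of_bound hf.aestronglyMeasurable 1
    (Eventually.of_forall hb)
  have hz : μ[f | m] =ᵐ[μ] 0 := by
    symm
    refine ae_eq_condExp_of_forall_setIntegral_eq hm hfi (fun _ _ _ => integrableOn_zero)
      (fun B hB _ => ?_) aestronglyMeasurable_zero
    rw [h0 B hB]
    simp
  have hg0 : g =ᵐ[μ] 0 := hge.trans hz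
  refine ⟨measurable_const, fun x => by simp, fun h hh hhb => ?_⟩
  have h1 := hg.2.2 h hh hhb
  have h2 : ∫ x, (f x - 0) * h x ∂μ = ∫ x, (f x - g x) * h x ∂μ := by
    refine integral_congr_ae ?_
    filter_upwards [hg0] with x hx
    rw [hx]
    rfl
  exact h2.trans h1

/-- condition on a complex function -/
def AdmP (μ : Measure X) (mA mY : MeasurableSpace X) (Φ : G →* Equiv.Perm X)
    (q : (Fin k → ℕ) → J → G) (S : Finset J) (U : Finset (Fin k)) (v : J) (F : X → ℂ) : Prop :=
  @BM X mX F ∧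
    (v ∈ S → (∃ r : G, Measurable[cm mA Φ r] F) ∧
      ∃ s : G, ∀ B : Set X, MeasurableSet[cm mA Φ s] B → ∫ x in B, F x ∂μ = 0) ∧
    (v ∉ S → Measurable[mY] F ∧ InvU Φ q U v F)

theorem AdmR.bm (hK : KExt μ mA mY Φ ℓ) {q : (Fin k → ℕ) → J → G} {S : Finset J}
    {U : Finset (Fin k)} {v : J} {f : X → ℝ}
    (hf : AdmR μ mA mY Φ q S U v f) : BM fun x => (f x : ℂ) := by
  have hm : Measurable f := by
    by_cases hv : v ∈ S
    · obtain ⟨⟨r, hr⟩, _⟩ := hf.2.1 hv
      exact hr.mono (cm_le hK.fl hK.filt r) le_rfl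
    · exact (hf.2.2 hv).1.mono (hK.base.le.trans hK.filt.le) le_rfl
  exact ⟨Complex.measurable_ofReal.comp hm, 1, fun x => by
    rw [Complex.norm_real]
    exact hf.1 x⟩

/-- **Convergence to zero, finite memory.** -/
theorem zero_complexR (hK : KExt μ mA mY Φ ℓ) {s₀ : G} (hs₀ : 0 < ℓ s₀)
    {S : Finset J} {q : (Fin k → ℕ) → J → G} {U : Finset (Fin k)} {dep : J → Fin k → Prop}
    (hP : Pol ℓ q S U dep)
    {F : J → X → ℂ} (hF : ∀ v, AdmP μ mA mY Φ q S U v (F v)) :
    Cz μ (fun v n => (Φ (q n v) : X → X)) F := by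
  classical
  set g : J → (Fin k → ℕ) → X → X := fun v n => (Φ (q n v) : X → X) with hg
  have key : ∀ (B : Finset J) (F : J → X → ℂ), (∀ v ∈ B, AdmP μ mA mY Φ q S U v (F v)) →
      (∀ v ∉ B, ∃ f : X → ℝ, AdmR μ mA mY Φ q S U v f ∧ F v = fun x => (f x : ℂ)) →
      Cz μ g F := by
    intro B
    induction B using Finset.induction_on with
    | empty =>
      intro F _ hF2
      choose f hf hFf using fun v => hF2 v (Finset.notMem_empty v)
      have h4 := zero_realR hK hs₀ hP hf
      filter_upwards [h4] with x hx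
      have h5 := (Complex.continuous_ofReal.tendsto _).comp hx
      rw [Complex.ofReal_zero] at h5
      refine h5.congr fun N => ?_
      rw [Function.comp_apply, ← bxc_cast]
      congr 1
      funext n
      push_cast
      refine Finset.prod_congr rfl fun v _ => ?_
      rw [hFf v]
    | insert v B hv ih =>
      intro F hF1 hF2
      have hcast : ∀ f : X → ℝ, AdmR μ mA mY Φ q S U v f →
          Cz μ g (Function.update F v fun x => (f x : ℂ)) := by
        intro f hf
        apply ih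
        · intro w hw
          have hwv : w ≠ v := fun e => hv (e ▸ hw)
          rw [Function.update_of_ne hwv]
          exact hF1 w (Finset.mem_insert_of_mem hw)
        · intro w hw
          by_cases hwv : w = v
          · subst hwv
            exact ⟨f, hf, by rw [Function.update_self]⟩
          · rw [Function.update_of_ne hwv]
            apply hF2
            intro hmem
            rcases Finset.mem_insert.mp hmem with h5 | h5
            · exact hwv h5
            · exact hw h5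
      have hcomb : ∀ (C : ℝ) (f₁ f₂ : X → ℝ), AdmR μ mA mY Φ q S U v f₁ →
          AdmR μ mA mY Φ q S U v f₂ →
          Cz μ g (Function.update F v (((C : ℂ) • fun x => (f₁ x : ℂ)) +
            ((C : ℂ) * Complex.I) • fun x => (f₂ x : ℂ))) := by
        intro C f₁ f₂ hf₁ hf₂
        exact Cz_add (Cz_smul _ (hcast f₁ hf₁)) (Cz_smul _ (hcast f₂ hf₂))
      obtain ⟨hBM, hSv, hSv'⟩ := hF1 v (Finset.mem_insert_self v B)
      obtain ⟨hFm, C₀, hC₀⟩ := hBM
      set C : ℝ := |C₀| + 1 with hC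
      have hCpos : 0 < C := by positivity
      have hCb : ∀ x, ‖F v x‖ ≤ C := fun x =>
        ((hC₀ x).trans (le_abs_self _)).trans (by rw [hC]; linarith)
      set f₁ : X → ℝ := fun x => (F v x).re / C with hf₁
      set f₂ : X → ℝ := fun x => (F v x).im / C with hf₂
      have hb₁ : ∀ x, |f₁ x| ≤ 1 := by
        intro x
        rw [hf₁]
        show |(F v x).re / C| ≤ 1
        rw [abs_div, abs_of_pos hCpos, div_le_one hCpos]
        exact (Complex.abs_re_le_norm _).trans (hCb x)
      have hb₂ : ∀ x, |f₂ x| ≤ 1 := by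
        intro x
        rw [hf₂]
        show |(F v x).im / C| ≤ 1
        rw [abs_div, abs_of_pos hCpos, div_le_one hCpos]
        exact (Complex.abs_im_le_norm _).trans (hCb x)
      have hm₁ : Measurable f₁ := (Complex.measurable_re.comp hFm).div_const _
      have hm₂ : Measurable f₂ := (Complex.measurable_im.comp hFm).div_const _
      have hdec : ∀ x, F v x = (C : ℂ) * (f₁ x : ℂ) + (C : ℂ) * Complex.I * (f₂ x : ℂ) := by
        intro x
        have hC' : (C : ℂ) ≠ 0 := by exact_mod_cast hCpos.ne'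
        rw [hf₁, hf₂]
        push_cast
        field_simp
        exact (Complex.re_add_im (F v x)).symm.trans (by ring)
      have ha₁ : AdmR μ mA mY Φ q S U v f₁ := by
        refine ⟨hb₁, fun hvS => ?_, fun hvS => ?_⟩
        · obtain ⟨⟨r, hr⟩, s, hs⟩ := hSv hvS
          have hFi : Integrable (F v) μ := Integrable.of_bound hFm.aestronglyMeasurable C
            (Eventually.of_forall hCb)
          refine ⟨⟨r, (Complex.measurable_re.comp hr).div_const _⟩, s,
            CE_of_int (cm_le hK.fl hK.filt s) hm₁ hb₁ fun B hB => ?_⟩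
          have h5 : ∫ x in B, f₁ x ∂μ = (∫ x in B, F v x ∂μ).re / C := by
            rw [hf₁, integral_div]
            congr 1
            exact integral_re hFi.integrableOn
          rw [h5, hs B hB]
          simp
        · refine ⟨(Complex.measurable_re.comp (hSv' hvS).1).div_const _, fun l hl n t x => ?_⟩
          show (F v _).re / C = (F v _).re / C
          rw [(hSv' hvS).2 l hl n t x]
      have ha₂ : AdmR μ mA mY Φ q S U v f₂ := by
        refine ⟨hb₂, fun hvS => ?_, fun hvS => ?_⟩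
        · obtain ⟨⟨r, hr⟩, s, hs⟩ := hSv hvS
          have hFi : Integrable (F v) μ := Integrable.of_bound hFm.aestronglyMeasurable C
            (Eventually.of_forall hCb)
          refine ⟨⟨r, (Complex.measurable_im.comp hr).div_const _⟩, s,
            CE_of_int (cm_le hK.fl hK.filt s) hm₂ hb₂ fun B hB => ?_⟩
          have h5 : ∫ x in B, f₂ x ∂μ = (∫ x in B, F v x ∂μ).im / C := by
            rw [hf₂, integral_div]
            congr 1
            exact integral_im hFi.integrableOn
          rw [h5, hs B hB]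
          simp
        · refine ⟨(Complex.measurable_im.comp (hSv' hvS).1).div_const _, fun l hl n t x => ?_⟩
          show (F v _).im / C = (F v _).im / C
          rw [(hSv' hvS).2 l hl n t x]
      have hfin := hcomb C f₁ f₂ ha₁ ha₂
      have e : (((C : ℂ) • fun x => (f₁ x : ℂ)) +
          ((C : ℂ) * Complex.I) • fun x => (f₂ x : ℂ)) = F v := by
        funext x
        rw [Pi.add_apply, Pi.smul_apply, Pi.smul_apply, smul_eq_mul, smul_eq_mul, ← hdec]
      rwa [e, Function.update_eq_self] at hfin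
  exact key Finset.univ F (fun v _ => hF v) fun v hv => absurd (Finset.mem_univ v) hv

end Pool.Agent.H69N.KP
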